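import Pool.Agent.Work.MP_09c931_an.ProjTensor

/-!
# Sign averaging
-/

set_option autoImplicit false

open scoped Topology TensorProduct

namespace Pool.Agent.Work.MP_09c931_an

variable {E F J : Type*} [AddCommGroup E] [Module ℂ E] [AddCommGroup F] [Module ℂ F]
  [DecidableEq J]

/-- The sign `+1` on `T` and `-1` off `T`. -/
def sgn (T : Finset J) (j : J) : ℂ := if j ∈ T then 1 else -1

theorem sgn_norm (T : Finset J) (j : J) : ‖sgn T j‖ = 1 := by
  unfold sgn
  split_ifs <;> simp

theorem sum_signs (S : Finset J) (x : J → E) (y : J → F) :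
    ∑ T ∈ S.powerset, (∑ j ∈ S, sgn T j • x j) ⊗ₜ[ℂ] (∑ j ∈ S, sgn T j • y j) =
      (2 : ℂ) ^ S.card • ∑ j ∈ S, x j ⊗ₜ[ℂ] y j := by
  induction S using Finset.induction_on with
  | empty => simp
  | insert a S ha ih =>
    rw [Finset.sum_powerset_insert ha, ← Finset.sum_add_distrib]
    have h1 : ∀ T ∈ S.powerset,
        (∑ j ∈ insert a S, sgn T j • x j) ⊗ₜ[ℂ] (∑ j ∈ insert a S, sgn T j • y j) +
        (∑ j ∈ insert a S, sgn (insert a T) j • x j) ⊗ₜ[ℂ]
          (∑ j ∈ insert a S, sgn (insert a T) j • y j) =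
        (2 : ℂ) • ((∑ j ∈ S, sgn T j • x j) ⊗ₜ[ℂ] (∑ j ∈ S, sgn T j • y j)) +
          (2 : ℂ) • (x a ⊗ₜ[ℂ] y a) := by
      intro T hT
      have haT : a ∉ T := fun h => ha (Finset.mem_powerset.1 hT h)
      have e1 : sgn T a = -1 := by simp [sgn, haT]
      have e2 : sgn (insert a T) a = 1 := by simp [sgn]
      have e3 : ∀ j ∈ S, sgn (insert a T) j = sgn T j := by
        intro j hj
        have : j ≠ a := fun h => ha (h ▸ hj)
        simp [sgn, this]
      rw [Finset.sum_insert ha, Finset.sum_insert ha, Finset.sum_insert ha, Finset.sum_insert ha,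
        e1, e2, Finset.sum_congr rfl (fun j hj => by rw [e3 j hj] :
          ∀ j ∈ S, sgn (insert a T) j • x j = sgn T j • x j),
        Finset.sum_congr rfl (fun j hj => by rw [e3 j hj] :
          ∀ j ∈ S, sgn (insert a T) j • y j = sgn T j • y j)]
      set X := ∑ j ∈ S, sgn T j • x j
      set Y := ∑ j ∈ S, sgn T j • y j
      simp only [TensorProduct.add_tmul, TensorProduct.tmul_add, neg_smul, one_smul,
        TensorProduct.neg_tmul, TensorProduct.tmul_neg, neg_neg, two_smul]
      abel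
    rw [Finset.sum_congr rfl h1, Finset.sum_add_distrib, ← Finset.smul_sum, ih,
      Finset.sum_const, Finset.card_powerset, Finset.card_insert_of_notMem ha,
      Finset.sum_insert ha, pow_succ, smul_add, ← Nat.cast_smul_eq_nsmul ℂ, smul_smul, smul_smul]
    push_cast
    rw [add_comm, mul_comm (2 : ℂ) (2 ^ S.card)]

/-- If all signed sums of the `x j` and of the `y j` are bounded, then so is `∑ x j ⊗ y j`. -/
theorem projSeminorm_sum_le {p : Seminorm ℂ E} {q : Seminorm ℂ F} {P Q : ℝ} (S : Finset J)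
    (x : J → E) (y : J → F) (hx : ∀ T : Finset J, p (∑ j ∈ S, sgn T j • x j) ≤ P)
    (hy : ∀ T : Finset J, q (∑ j ∈ S, sgn T j • y j) ≤ Q) :
    projSeminorm p q (∑ j ∈ S, x j ⊗ₜ[ℂ] y j) ≤ P * Q := by
  have hP : 0 ≤ P := (apply_nonneg p _).trans (hx ∅)
  have h1 : projSeminorm p q ((2 : ℂ) ^ S.card • ∑ j ∈ S, x j ⊗ₜ[ℂ] y j) ≤
      2 ^ S.card * (P * Q) := by
    rw [← sum_signs]
    calc projSeminorm p q (∑ T ∈ S.powerset,
          (∑ j ∈ S, sgn T j • x j) ⊗ₜ[ℂ] (∑ j ∈ S, sgn T j • y j))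
        ≤ ∑ T ∈ S.powerset, projSeminorm p q
            ((∑ j ∈ S, sgn T j • x j) ⊗ₜ[ℂ] (∑ j ∈ S, sgn T j • y j)) :=
          Finset.le_sum_of_subadditive (projSeminorm p q) (map_zero _).le (map_add_le_add _) _ _
      _ ≤ ∑ T ∈ S.powerset, P * Q := by
          apply Finset.sum_le_sum
          intro T _
          exact (projSeminorm_tmul_le _ _ _ _).trans
            (mul_le_mul (hx T) (hy T) (apply_nonneg _ _) hP)
      _ = 2 ^ S.card * (P * Q) := by
          rw [Finset.sum_const, Finset.card_powerset, nsmul_eq_mul]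
          push_cast
          ring
  rw [map_smul_eq_mul, norm_pow, Complex.norm_ofNat] at h1
  exact le_of_mul_le_mul_left h1 (by positivity)

end Pool.Agent.Work.MP_09c931_an
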