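import Pool.Agent.Work.MP_09c931_an.Cuts
import Pool.Agent.Work.MP_09c931_an.Averaging

/-!
# `I^Δ` has a bounded right approximate identity for `A = C(ω₁)`
-/

set_option autoImplicit false

open scoped Topology TensorProduct
open UniformSpace

namespace Pool.Agent.Work.MP_09c931_an

/-- The algebra `C(ω₁)`. -/
abbrev CW : Type := C(W1, ℂ)

/-- The inclusion `A → A₊`. -/
noncomputable def inrP : CW →ₗ[ℂ] Plus CW :=
  ((Plus.toProd CW).symm : (ℂ × CW) →ₗ[ℂ] Plus CW).comp (LinearMap.inr ℂ ℂ CW)

theorem toProd_inrP (a : CW) : Plus.toProd CW (inrP a) = (0, a) := rfl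

theorem continuous_inrP : Continuous inrP := by
  rw [(Plus.isInducing CW).continuous_iff]
  exact continuous_const.prodMk continuous_id

/-- The homomorphism `A₊ → A` for the unital algebra `A = C(ω₁)`. -/
noncomputable def evP (y : Plus CW) : CW := (Plus.toProd CW y).1 • 1 + (Plus.toProd CW y).2

theorem mul_inrP (y : Plus CW) (h : CW) : y * inrP h = inrP (evP y * h) := by
  apply (Plus.toProd CW).injective
  rw [Plus.toProd_mul, toProd_inrP, toProd_inrP]
  ext1
  · simp
  · simp [evP, add_mul]

theorem inrP_mul (y : Plus CW) (h : CW) : inrP h * y = inrP (evP y * h) := by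
  apply (Plus.toProd CW).injective
  rw [Plus.toProd_mul, toProd_inrP, toProd_inrP]
  ext1
  · simp
  · ext s
    simp [evP]
    ring

theorem evP_inrP (h : CW) : evP (inrP h) = h := by
  ext s
  simp [evP, toProd_inrP]

theorem inrP_mul_inrP (g h : CW) : inrP g * inrP h = inrP (g * h) := by
  rw [mul_inrP, evP_inrP]

/-- The idempotent `1 - e` of `A₊`, where `e` is the unit of `A`. -/
noncomputable def fP : Plus CW := 1 - inrP 1

theorem toProd_one : Plus.toProd CW 1 = (1, 0) := rfl

theorem mul_fP (y : Plus CW) : y * fP = (Plus.toProd CW y).1 • fP := by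
  unfold fP
  rw [mul_sub, mul_one, mul_inrP, mul_one]
  apply (Plus.toProd CW).injective
  rw [map_sub, map_smul, map_sub, toProd_inrP, toProd_inrP, toProd_one]
  ext1
  · simp
  · simp [evP]

theorem fP_mul (y : Plus CW) : fP * y = (Plus.toProd CW y).1 • fP := by
  unfold fP
  rw [sub_mul, one_mul, inrP_mul, mul_one]
  apply (Plus.toProd CW).injective
  rw [map_sub, map_smul, map_sub, toProd_inrP, toProd_inrP, toProd_one]
  ext1
  · simp
  · simp [evP]

theorem fP_mul_fP : fP * fP = fP := by
  rw [mul_fP]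
  have : (Plus.toProd CW fP).1 = 1 := by
    unfold fP
    rw [map_sub, toProd_inrP, toProd_one]
    simp
  rw [this, one_smul]

/-- The approximate diagonal `∑ χ ⊗ χ + f ⊗ f` of `A₊`. -/
noncomputable def mF (F : Finset W1) : PreEnv CW :=
  (∑ G ∈ F.powerset, tm (inrP (chi F G)) (opP CW (inrP (chi F G)))) + tm fP (opP CW fP)

theorem chi_mul_chi (F G : Finset W1) : chi F G * chi F G = chi F G := by
  ext s
  rw [ContinuousMap.mul_apply, chi_apply]
  split_ifs <;> simp

theorem sum_chi (F : Finset W1) : ∑ G ∈ F.powerset, chi F G = 1 := by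
  ext s
  have := sum_chi_apply F (fun _ => 1) s
  simpa using this

theorem piPre_mF (F : Finset W1) : piPre CW (mF F) = 1 := by
  unfold mF
  rw [map_add, map_sum, piPre_tm, fP_mul_fP]
  have h : ∀ G ∈ F.powerset, piPre CW (tm (inrP (chi F G)) (opP CW (inrP (chi F G)))) =
      inrP (chi F G) := by
    intro G _
    rw [piPre_tm, inrP_mul_inrP, chi_mul_chi]
  rw [Finset.sum_congr rfl h, ← map_sum, sum_chi]
  unfold fP
  abel

/-- The approximate identity `1 - m_F` of `I^Δ`. -/
noncomputable def eF (F : Finset W1) : Env CW := ((1 - mF F : PreEnv CW) : Env CW)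

theorem eF_mem (F : Finset W1) : eF F ∈ IDelta CW := by
  have h1 : piPre CW (1 : PreEnv CW) = 1 := by
    rw [one_eq_tm, ← opP_one, piPre_tm, one_mul]
  have h : piPlus CW (eF F) = 0 := by
    unfold eF
    rw [piPlus_coe, map_sub, h1, piPre_mF, sub_self]
  exact h

end Pool.Agent.Work.MP_09c931_an
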