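import Mathlib

/-!
# Projective tensor products of locally convex spaces

Everything is over `ℂ`.  `PTensor E F` is the algebraic tensor product `E ⊗ F` with the
projective topology, `CTensor E F` is its completion, the completed projective tensor product.
-/

set_option autoImplicit false

open scoped TensorProduct Topology
open UniformSpace

namespace Pool.Agent.Work.MP_09c931_an

section Seminorms

variable {E F G : Type*} [AddCommGroup E] [Module ℂ E] [AddCommGroup F] [Module ℂ F]
  [AddCommGroup G] [Module ℂ G]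

/-- The set of all numbers `∑ p (x i) * q (y i)`, where `u = ∑ x i ⊗ y i` is a representation of
`u ∈ E ⊗ F` as a finite sum of elementary tensors (encoded by the list of the pairs
`(x i, y i)`). -/
def reprCosts (p : Seminorm ℂ E) (q : Seminorm ℂ F) (u : E ⊗[ℂ] F) : Set ℝ :=
  {c | ∃ l : List (E × F), (l.map fun z => z.1 ⊗ₜ[ℂ] z.2).sum = u ∧
    (l.map fun z => p z.1 * q z.2).sum = c}

theorem reprCosts_nonneg {p : Seminorm ℂ E} {q : Seminorm ℂ F} {u : E ⊗[ℂ] F} {c : ℝ}
    (hc : c ∈ reprCosts p q u) : 0 ≤ c := by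
  obtain ⟨l, -, rfl⟩ := hc
  apply List.sum_nonneg
  intro x hx
  obtain ⟨z, -, rfl⟩ := List.mem_map.1 hx
  exact mul_nonneg (apply_nonneg _ _) (apply_nonneg _ _)

theorem reprCosts_bddBelow (p : Seminorm ℂ E) (q : Seminorm ℂ F) (u : E ⊗[ℂ] F) :
    BddBelow (reprCosts p q u) := ⟨0, fun _ hc => reprCosts_nonneg hc⟩

theorem reprCosts_add {p : Seminorm ℂ E} {q : Seminorm ℂ F} {u v : E ⊗[ℂ] F} {c d : ℝ}
    (hc : c ∈ reprCosts p q u) (hd : d ∈ reprCosts p q v) : c + d ∈ reprCosts p q (u + v) := by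
  obtain ⟨l, hl, hl'⟩ := hc
  obtain ⟨m, hm, hm'⟩ := hd
  exact ⟨l ++ m, by rw [List.map_append, List.sum_append, hl, hm],
    by rw [List.map_append, List.sum_append, hl', hm']⟩

theorem reprCosts_tmul (p : Seminorm ℂ E) (q : Seminorm ℂ F) (x : E) (y : F) :
    p x * q y ∈ reprCosts p q (x ⊗ₜ[ℂ] y) := ⟨[(x, y)], by simp, by simp⟩

theorem reprCosts_nonempty (p : Seminorm ℂ E) (q : Seminorm ℂ F) (u : E ⊗[ℂ] F) :
    (reprCosts p q u).Nonempty := by
  induction u using TensorProduct.induction_on with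
  | zero => exact ⟨0, [], by simp, by simp⟩
  | tmul x y => exact ⟨_, reprCosts_tmul p q x y⟩
  | add u v hu hv =>
    obtain ⟨c, hc⟩ := hu
    obtain ⟨d, hd⟩ := hv
    exact ⟨_, reprCosts_add hc hd⟩

theorem reprCosts_smul {p : Seminorm ℂ E} {q : Seminorm ℂ F} {u : E ⊗[ℂ] F} {c : ℝ} (a : ℂ)
    (hc : c ∈ reprCosts p q u) : ‖a‖ * c ∈ reprCosts p q (a • u) := by
  obtain ⟨l, rfl, rfl⟩ := hc
  refine ⟨l.map fun z => (a • z.1, z.2), ?_, ?_⟩
  · rw [List.map_map, List.smul_sum, List.map_map]
    rfl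
  · rw [List.map_map, ← List.sum_map_mul_left]
    congr 1
    apply List.map_congr_left
    intro z _
    simp only [Function.comp_apply, map_smul_eq_mul]
    ring

/-- The projective tensor product of the seminorms `p` and `q`:
`projSeminorm p q u = inf ∑ p (x i) * q (y i)` over all representations `u = ∑ x i ⊗ y i`. -/
noncomputable def projSeminorm (p : Seminorm ℂ E) (q : Seminorm ℂ F) :
    Seminorm ℂ (E ⊗[ℂ] F) :=
  Seminorm.ofSMulLE (fun u => sInf (reprCosts p q u))
    (le_antisymm (csInf_le (reprCosts_bddBelow p q 0) ⟨[], by simp, by simp⟩)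
      (Real.sInf_nonneg fun _ hc => reprCosts_nonneg hc))
    (fun u v => by
      refine le_of_forall_pos_le_add fun ε hε => ?_
      obtain ⟨c, hc, hc'⟩ := exists_lt_of_csInf_lt (reprCosts_nonempty p q u)
        (lt_add_of_pos_right (sInf (reprCosts p q u)) (half_pos hε))
      obtain ⟨d, hd, hd'⟩ := exists_lt_of_csInf_lt (reprCosts_nonempty p q v)
        (lt_add_of_pos_right (sInf (reprCosts p q v)) (half_pos hε))
      have := csInf_le (reprCosts_bddBelow p q (u + v)) (reprCosts_add hc hd)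
      linarith)
    (fun a u => by
      rcases eq_or_ne a 0 with rfl | ha
      · rw [zero_smul, norm_zero, zero_mul]
        exact csInf_le (reprCosts_bddBelow p q 0) ⟨[], by simp, by simp⟩
      · have ha' : 0 < ‖a‖ := norm_pos_iff.2 ha
        rw [← div_le_iff₀' ha']
        apply le_csInf (reprCosts_nonempty p q u)
        intro c hc
        rw [div_le_iff₀' ha']
        exact csInf_le (reprCosts_bddBelow p q _) (reprCosts_smul a hc))

theorem projSeminorm_apply (p : Seminorm ℂ E) (q : Seminorm ℂ F) (u : E ⊗[ℂ] F) :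
    projSeminorm p q u = sInf (reprCosts p q u) := rfl

/-- `projSeminorm p q` is the largest seminorm `r` with `r (x ⊗ y) ≤ p x * q y`. -/
theorem le_projSeminorm {p : Seminorm ℂ E} {q : Seminorm ℂ F} {r : Seminorm ℂ (E ⊗[ℂ] F)}
    (h : ∀ x y, r (x ⊗ₜ[ℂ] y) ≤ p x * q y) : r ≤ projSeminorm p q := by
  intro u
  rw [projSeminorm_apply]
  apply le_csInf (reprCosts_nonempty p q u)
  rintro _ ⟨l, rfl, rfl⟩
  induction l with
  | nil => simp
  | cons z l ih =>
    rw [List.map_cons, List.map_cons, List.sum_cons, List.sum_cons]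
    exact (map_add_le_add r _ _).trans (add_le_add (h _ _) ih)

theorem projSeminorm_tmul_le (p : Seminorm ℂ E) (q : Seminorm ℂ F) (x : E) (y : F) :
    projSeminorm p q (x ⊗ₜ[ℂ] y) ≤ p x * q y :=
  csInf_le (reprCosts_bddBelow p q _) (reprCosts_tmul p q x y)

theorem le_mul_projSeminorm {p : Seminorm ℂ E} {q : Seminorm ℂ F} {r : Seminorm ℂ (E ⊗[ℂ] F)}
    {c : ℝ} (hc : 0 ≤ c) (h : ∀ x y, r (x ⊗ₜ[ℂ] y) ≤ c * (p x * q y)) (u : E ⊗[ℂ] F) :
    r u ≤ c * projSeminorm p q u := by
  rcases hc.eq_or_lt with rfl | hc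
  · rw [zero_mul]
    induction u using TensorProduct.induction_on with
    | zero => simp
    | tmul x y => simpa using h x y
    | add u v hu hv => exact (map_add_le_add r u v).trans (by linarith)
  · obtain ⟨d, hd⟩ : ∃ d : NNReal, (d : ℝ) = c⁻¹ := ⟨⟨c⁻¹, by positivity⟩, rfl⟩
    have h1 : d • r ≤ projSeminorm p q := by
      apply le_projSeminorm
      intro x y
      have h2 : (d • r) (x ⊗ₜ[ℂ] y) = c⁻¹ * r (x ⊗ₜ[ℂ] y) := by rw [← hd]; rfl
      rw [h2, inv_mul_le_iff₀ hc]
      exact h x y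
    have h3 : (d • r) u = c⁻¹ * r u := by rw [← hd]; rfl
    have h4 := h1 u
    rw [h3, inv_mul_le_iff₀ hc] at h4
    exact h4

end Seminorms

section Topology

/-- The algebraic tensor product `E ⊗ F` over `ℂ`, to be equipped with the projective topology. -/
def PTensor (E F : Type*) [AddCommGroup E] [Module ℂ E] [AddCommGroup F] [Module ℂ F] :=
  E ⊗[ℂ] F

variable (E F : Type*) [AddCommGroup E] [Module ℂ E] [AddCommGroup F] [Module ℂ F]

noncomputable instance : AddCommGroup (PTensor E F) := inferInstanceAs (AddCommGroup (E ⊗[ℂ] F))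

noncomputable instance : Module ℂ (PTensor E F) := inferInstanceAs (Module ℂ (E ⊗[ℂ] F))

variable {E F} in
/-- The elementary tensor `x ⊗ y`. -/
noncomputable def tm (x : E) (y : F) : PTensor E F := (x ⊗ₜ[ℂ] y : E ⊗[ℂ] F)

variable {E F} in
theorem tm_add (x : E) (y y' : F) : tm x (y + y') = tm x y + tm x y' :=
  TensorProduct.tmul_add x y y'

variable {E F} in
theorem add_tm (x x' : E) (y : F) : tm (x + x') y = tm x y + tm x' y :=
  TensorProduct.add_tmul x x' y

variable {E F} in
theorem tm_sub (x : E) (y y' : F) : tm x (y - y') = tm x y - tm x y' :=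
  TensorProduct.tmul_sub x y y'

variable {E F} in
theorem sub_tm (x x' : E) (y : F) : tm (x - x') y = tm x y - tm x' y :=
  TensorProduct.sub_tmul x x' y

variable {E F} in
theorem tm_smul (c : ℂ) (x : E) (y : F) : tm x (c • y) = c • tm x y :=
  TensorProduct.tmul_smul c x y

variable {E F} in
theorem smul_tm (c : ℂ) (x : E) (y : F) : tm (c • x) y = c • tm x y :=
  TensorProduct.smul_tmul' c x y

variable {E F} in
theorem PTensor.induction {P : PTensor E F → Prop} (u : PTensor E F) (h0 : P 0)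
    (ht : ∀ x y, P (tm x y)) (ha : ∀ u v, P u → P v → P (u + v)) : P u :=
  TensorProduct.induction_on (motive := P) u h0 ht ha

variable [TopologicalSpace E] [TopologicalSpace F]

/-- The seminorms `projSeminorm p q`, where `p` and `q` are continuous seminorms. -/
noncomputable def projFamily :
    SeminormFamily ℂ (PTensor E F)
      ({p : Seminorm ℂ E // Continuous p} × {q : Seminorm ℂ F // Continuous q}) :=
  fun i => projSeminorm i.1.1 i.2.1

/-- The projective topology on `E ⊗ F`, defined by all the seminorms `projSeminorm p q`, where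
`p` and `q` are continuous seminorms on `E` and `F`. -/
noncomputable instance : TopologicalSpace (PTensor E F) :=
  (projFamily E F).moduleFilterBasis.topology

theorem withSeminorms_proj : WithSeminorms (projFamily E F) := ⟨rfl⟩

instance : IsTopologicalAddGroup (PTensor E F) := (withSeminorms_proj E F).topologicalAddGroup

instance : ContinuousSMul ℂ (PTensor E F) := (withSeminorms_proj E F).continuousSMul

noncomputable instance : UniformSpace (PTensor E F) :=
  IsTopologicalAddGroup.rightUniformSpace (PTensor E F)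

instance : IsUniformAddGroup (PTensor E F) := isUniformAddGroup_of_addCommGroup

instance : UniformContinuousConstSMul ℂ (PTensor E F) :=
  uniformContinuousConstSMul_of_continuousConstSMul _ _

instance : PolynormableSpace ℂ (PTensor E F) := (withSeminorms_proj E F).toPolynormableSpace

/-- The completed projective tensor product of `E` and `F`. -/
abbrev CTensor := Completion (PTensor E F)

end Topology

section Bilinear

variable {E F G : Type*} [AddCommGroup E] [Module ℂ E] [AddCommGroup F] [Module ℂ F]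
  [AddCommGroup G] [Module ℂ G] [TopologicalSpace E] [TopologicalSpace F] [TopologicalSpace G]

/-- In a locally convex space, every neighbourhood of `0` contains the open unit ball of a
continuous seminorm. -/
theorem exists_seminorm_ball_subset [PolynormableSpace ℂ E] {U : Set E} (hU : U ∈ 𝓝 (0 : E)) :
    ∃ p : Seminorm ℂ E, Continuous p ∧ ∀ x, p x < 1 → x ∈ U := by
  have hw := PolynormableSpace.withSeminorms ℂ E
  have := hw.topologicalAddGroup
  have := hw.continuousSMul
  obtain ⟨s, r, hr, hs⟩ := (hw.mem_nhds_iff 0 U).1 hU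
  set q : Seminorm ℂ E := s.sup (fun p : {p : Seminorm ℂ E // Continuous p} => p.1) with hq
  have hqc : Continuous q := Seminorm.continuous_finsetSup fun i _ => i.2
  obtain ⟨c, hc⟩ : ∃ c : NNReal, (c : ℝ) = r⁻¹ := ⟨⟨r⁻¹, by positivity⟩, rfl⟩
  refine ⟨c • q, ?_, ?_⟩
  · exact hqc.const_smul c
  · intro x hx
    apply hs
    rw [Seminorm.mem_ball_zero]
    have h1 : (c • q) x = r⁻¹ * q x := by rw [← hc]; rfl
    rw [h1] at hx
    have h2 : q x < r := by
      have := mul_lt_mul_of_pos_left hx hr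
      rwa [← mul_assoc, mul_inv_cancel₀ hr.ne', one_mul, mul_one] at this
    exact h2

/-- A bilinear map `B : E × F → G` is bounded by seminorms if for every continuous seminorm `s`
on `G` there are continuous seminorms `p`, `q` with `s (B x y) ≤ p x * q y`. -/
def BB (B : E →ₗ[ℂ] F →ₗ[ℂ] G) : Prop :=
  ∀ s : Seminorm ℂ G, Continuous s → ∃ p : Seminorm ℂ E, Continuous p ∧
    ∃ q : Seminorm ℂ F, Continuous q ∧ ∀ x y, s (B x y) ≤ p x * q y

/-- A jointly continuous bilinear map is bounded by seminorms. -/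
theorem BB.of_continuous [PolynormableSpace ℂ E] [PolynormableSpace ℂ F]
    {B : E →ₗ[ℂ] F →ₗ[ℂ] G} (hB : Continuous fun z : E × F => B z.1 z.2) : BB B := by
  intro s hs
  have h0 : {z : E × F | s (B z.1 z.2) < 1} ∈ 𝓝 ((0 : E), (0 : F)) := by
    have hc : Continuous fun z : E × F => s (B z.1 z.2) := hs.comp hB
    have h2 : Set.Iio (1 : ℝ) ∈ 𝓝 (s (B ((0 : E), (0 : F)).1 ((0 : E), (0 : F)).2)) :=
      Iio_mem_nhds (by simp)
    exact hc.continuousAt.preimage_mem_nhds h2
  rw [nhds_prod_eq, Filter.mem_prod_iff] at h0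
  obtain ⟨U, hU, V, hV, hUV⟩ := h0
  obtain ⟨p, hp, hpU⟩ := exists_seminorm_ball_subset hU
  obtain ⟨q, hq, hqV⟩ := exists_seminorm_ball_subset hV
  refine ⟨p, hp, q, hq, fun x y => ?_⟩
  apply le_mul_of_forall_lt₀
  intro a ha b hb
  have ha0 : 0 < a := (apply_nonneg p x).trans_lt ha
  have hb0 : 0 < b := (apply_nonneg q y).trans_lt hb
  have hx : p (((a : ℂ)⁻¹) • x) < 1 := by
    rw [map_smul_eq_mul, norm_inv, Complex.norm_real, Real.norm_eq_abs, abs_of_pos ha0,
      inv_mul_lt_iff₀ ha0, mul_one]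
    exact ha
  have hy : q (((b : ℂ)⁻¹) • y) < 1 := by
    rw [map_smul_eq_mul, norm_inv, Complex.norm_real, Real.norm_eq_abs, abs_of_pos hb0,
      inv_mul_lt_iff₀ hb0, mul_one]
    exact hb
  have h1 : s (B (((a : ℂ)⁻¹) • x) (((b : ℂ)⁻¹) • y)) < 1 :=
    hUV (Set.mk_mem_prod (hpU _ hx) (hqV _ hy))
  rw [LinearMap.map_smul, LinearMap.map_smul₂, map_smul_eq_mul, map_smul_eq_mul, norm_inv,
    norm_inv, Complex.norm_real, Complex.norm_real, Real.norm_eq_abs, Real.norm_eq_abs,
    abs_of_pos ha0, abs_of_pos hb0, inv_mul_lt_iff₀ hb0, mul_one, inv_mul_lt_iff₀ ha0] at h1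
  exact h1.le

/-- A bilinear map bounded by seminorms is jointly continuous. -/
theorem BB.continuous [PolynormableSpace ℂ G] [IsTopologicalAddGroup E]
    [IsTopologicalAddGroup F] {B : E →ₗ[ℂ] F →ₗ[ℂ] G} (hB : BB B) :
    Continuous fun z : E × F => B z.1 z.2 := by
  rw [continuous_iff_continuousAt]
  rintro ⟨x0, y0⟩
  refine ((PolynormableSpace.withSeminorms ℂ G).tendsto_nhds _ _).2 ?_
  rintro ⟨s, hs⟩ ε hε
  obtain ⟨p, hp, q, hq, h⟩ := hB s hs
  have hφ : Continuous fun z : E × F => p (z.1 - x0) * q (z.2 - y0) + p (z.1 - x0) * q y0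
      + p x0 * q (z.2 - y0) := by
    have h1 : Continuous fun z : E × F => p (z.1 - x0) :=
      hp.comp (continuous_fst.sub continuous_const)
    have h2 : Continuous fun z : E × F => q (z.2 - y0) :=
      hq.comp (continuous_snd.sub continuous_const)
    fun_prop
  have h0 : (fun z : E × F => p (z.1 - x0) * q (z.2 - y0) + p (z.1 - x0) * q y0
      + p x0 * q (z.2 - y0)) (x0, y0) < ε := by simpa using hε
  filter_upwards [hφ.continuousAt.eventually_lt continuousAt_const h0] with z hz
  refine lt_of_le_of_lt ?_ hz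
  have h3 : B z.1 z.2 - B x0 y0 = (B (z.1 - x0) (z.2 - y0) + B (z.1 - x0) y0)
      + B x0 (z.2 - y0) := by
    simp only [map_sub, LinearMap.sub_apply]
    abel
  change s (B z.1 z.2 - B x0 y0) ≤ _
  rw [h3]
  refine (map_add_le_add s _ _).trans (add_le_add ((map_add_le_add s _ _).trans
    (add_le_add (h _ _) (h _ _))) (h _ _))

/-- Being bounded by seminorms can be checked on a defining family of seminorms of the target. -/
theorem BB.of_withSeminorms {ι : Type*} {g : SeminormFamily ℂ G ι} (hg : WithSeminorms g)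
    {B : E →ₗ[ℂ] F →ₗ[ℂ] G} [IsTopologicalAddGroup E] [IsTopologicalAddGroup F]
    [PolynormableSpace ℂ E] [PolynormableSpace ℂ F]
    (h : ∀ i, ∃ p : Seminorm ℂ E, Continuous p ∧
      ∃ q : Seminorm ℂ F, Continuous q ∧ ∀ x y, g i (B x y) ≤ p x * q y) : BB B := by
  apply BB.of_continuous
  rw [continuous_iff_continuousAt]
  rintro ⟨x0, y0⟩
  refine (hg.tendsto_nhds _ _).2 ?_
  rintro i ε hε
  obtain ⟨p, hp, q, hq, h⟩ := h i
  have hφ : Continuous fun z : E × F => p (z.1 - x0) * q (z.2 - y0) + p (z.1 - x0) * q y0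
      + p x0 * q (z.2 - y0) := by
    have h1 : Continuous fun z : E × F => p (z.1 - x0) :=
      hp.comp (continuous_fst.sub continuous_const)
    have h2 : Continuous fun z : E × F => q (z.2 - y0) :=
      hq.comp (continuous_snd.sub continuous_const)
    fun_prop
  have h0 : (fun z : E × F => p (z.1 - x0) * q (z.2 - y0) + p (z.1 - x0) * q y0
      + p x0 * q (z.2 - y0)) (x0, y0) < ε := by simpa using hε
  filter_upwards [hφ.continuousAt.eventually_lt continuousAt_const h0] with z hz
  refine lt_of_le_of_lt ?_ hz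
  have h3 : B z.1 z.2 - B x0 y0 = (B (z.1 - x0) (z.2 - y0) + B (z.1 - x0) y0)
      + B x0 (z.2 - y0) := by
    simp only [map_sub, LinearMap.sub_apply]
    abel
  change g i (B z.1 z.2 - B x0 y0) ≤ _
  rw [h3]
  refine (map_add_le_add (g i) _ _).trans (add_le_add ((map_add_le_add (g i) _ _).trans
    (add_le_add (h _ _) (h _ _))) (h _ _))

theorem BB.add {B C : E →ₗ[ℂ] F →ₗ[ℂ] G} (hB : BB B) (hC : BB C) : BB (B + C) := by
  intro s hs
  obtain ⟨p, hp, q, hq, h⟩ := hB s hs
  obtain ⟨p', hp', q', hq', h'⟩ := hC s hs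
  refine ⟨p + p', hp.add hp', q + q', hq.add hq', fun x y => ?_⟩
  have h1 : s ((B + C) x y) ≤ s (B x y) + s (C x y) := map_add_le_add s _ _
  have h2 : (p + p') x * (q + q') y = p x * q y + p' x * q' y + (p x * q' y + p' x * q y) := by
    simp only [Seminorm.add_apply]
    ring
  rw [h2]
  have h3 : 0 ≤ p x * q' y + p' x * q y := by positivity
  linarith [h x y, h' x y]

theorem BB.neg {B : E →ₗ[ℂ] F →ₗ[ℂ] G} (hB : BB B) : BB (-B) := by
  intro s hs
  obtain ⟨p, hp, q, hq, h⟩ := hB s hs
  refine ⟨p, hp, q, hq, fun x y => ?_⟩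
  have h1 : s ((-B) x y) = s (B x y) := by
    rw [LinearMap.neg_apply, LinearMap.neg_apply, map_neg_eq_map]
  rw [h1]
  exact h x y

theorem BB.sub {B C : E →ₗ[ℂ] F →ₗ[ℂ] G} (hB : BB B) (hC : BB C) : BB (B - C) := by
  rw [sub_eq_add_neg]
  exact hB.add hC.neg

/-- The linear map on `E ⊗ F` induced by a bilinear map bounded by seminorms, as a continuous
linear map for the projective topology. -/
noncomputable def PTensor.lift [PolynormableSpace ℂ G] (B : E →ₗ[ℂ] F →ₗ[ℂ] G) (hB : BB B) :
    PTensor E F →L[ℂ] G where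
  toLinearMap := (TensorProduct.lift B : E ⊗[ℂ] F →ₗ[ℂ] G)
  cont := by
    apply (PolynormableSpace.withSeminorms ℂ G).continuous_of_continuous_comp
      (E := PTensor E F) (𝕝 := ℂ)
    rintro ⟨s, hs⟩
    obtain ⟨p, hp, q, hq, h⟩ := hB s hs
    have h1 : Continuous (projFamily E F ⟨⟨p, hp⟩, ⟨q, hq⟩⟩) :=
      (withSeminorms_proj E F).continuous_seminorm _
    refine Seminorm.continuous_of_le h1 ?_
    apply le_projSeminorm
    intro x y
    exact h x y

@[simp]
theorem PTensor.lift_tm [PolynormableSpace ℂ G] (B : E →ₗ[ℂ] F →ₗ[ℂ] G) (hB : BB B)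
    (x : E) (y : F) : PTensor.lift B hB (tm x y) = B x y :=
  TensorProduct.lift.tmul x y

end Bilinear

section Ring

variable (A B : Type*) [Ring A] [Algebra ℂ A] [Ring B] [Algebra ℂ B]

noncomputable instance : Ring (PTensor A B) := inferInstanceAs (Ring (A ⊗[ℂ] B))

noncomputable instance : Algebra ℂ (PTensor A B) := inferInstanceAs (Algebra ℂ (A ⊗[ℂ] B))

-- the two additive group structures agree
example : (inferInstance : AddCommGroup (PTensor A B)) =
  (inferInstanceAs (AddCommGroup (A ⊗[ℂ] B))) := by with_reducible_and_instances rfl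

variable {A B}

theorem tm_mul_tm (a a' : A) (b b' : B) :
    (tm a b : PTensor A B) * tm a' b' = tm (a * a') (b * b') :=
  Algebra.TensorProduct.tmul_mul_tmul a a' b b'

theorem one_eq_tm : (1 : PTensor A B) = tm 1 1 := rfl

theorem projSeminorm_mul_le {p p1 p2 : Seminorm ℂ A} {q q1 q2 : Seminorm ℂ B}
    (hp : ∀ a a', p (a * a') ≤ p1 a * p2 a') (hq : ∀ b b', q (b * b') ≤ q1 b * q2 b')
    (u v : A ⊗[ℂ] B) :
    projSeminorm p q (u * v) ≤ projSeminorm p1 q1 u * projSeminorm p2 q2 v := by
  have h1 : ∀ a b, projSeminorm p q ((a ⊗ₜ[ℂ] b) * v) ≤ (p1 a * q1 b) * projSeminorm p2 q2 v := by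
    intro a b
    refine le_mul_projSeminorm (r := (projSeminorm p q).comp (LinearMap.mulLeft ℂ (a ⊗ₜ[ℂ] b)))
      (mul_nonneg (apply_nonneg _ _) (apply_nonneg _ _)) ?_ v
    intro a' b'
    change projSeminorm p q ((a ⊗ₜ[ℂ] b) * (a' ⊗ₜ[ℂ] b')) ≤ _
    rw [Algebra.TensorProduct.tmul_mul_tmul]
    refine (projSeminorm_tmul_le _ _ _ _).trans ?_
    calc p (a * a') * q (b * b') ≤ (p1 a * p2 a') * (q1 b * q2 b') :=
          mul_le_mul (hp _ _) (hq _ _) (apply_nonneg _ _)
            (mul_nonneg (apply_nonneg _ _) (apply_nonneg _ _))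
      _ = p1 a * q1 b * (p2 a' * q2 b') := by ring
  have h2 := le_mul_projSeminorm (p := p1) (q := q1)
    (r := (projSeminorm p q).comp (LinearMap.mulRight ℂ v)) (c := projSeminorm p2 q2 v)
    (apply_nonneg _ _) (fun a b => by
      change projSeminorm p q ((a ⊗ₜ[ℂ] b) * v) ≤ _
      rw [mul_comm (projSeminorm p2 q2 v)]
      exact h1 a b) u
  rw [mul_comm (projSeminorm p2 q2 v)] at h2
  exact h2

variable [TopologicalSpace A] [TopologicalSpace B]

instance [ContinuousMul A] [PolynormableSpace ℂ A] [ContinuousMul B]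
    [PolynormableSpace ℂ B] : IsTopologicalRing (PTensor A B) where
  continuous_add := continuous_add
  continuous_neg := continuous_neg
  continuous_mul := by
    have hA : BB (LinearMap.mul ℂ A) := BB.of_continuous (by simpa using continuous_mul)
    have hB : BB (LinearMap.mul ℂ B) := BB.of_continuous (by simpa using continuous_mul)
    have h : BB (LinearMap.mul ℂ (PTensor A B)) := by
      apply BB.of_withSeminorms (withSeminorms_proj A B)
      rintro ⟨⟨p, hp⟩, ⟨q, hq⟩⟩
      obtain ⟨p1, hp1, p2, hp2, h1⟩ := hA p hp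
      obtain ⟨q1, hq1, q2, hq2, h2⟩ := hB q hq
      refine ⟨projFamily A B ⟨⟨p1, hp1⟩, ⟨q1, hq1⟩⟩,
        (withSeminorms_proj A B).continuous_seminorm _,
        projFamily A B ⟨⟨p2, hp2⟩, ⟨q2, hq2⟩⟩,
        (withSeminorms_proj A B).continuous_seminorm _, ?_⟩
      intro u v
      exact projSeminorm_mul_le h1 h2 u v
    exact h.continuous

end Ring

end Pool.Agent.Work.MP_09c931_an
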