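import Pool.Agent.Work.MP_09c931_an.Defs
import Pool.Agent.Work.MP_09c931_an.ProjTensor

/-!
# Existence of completed projective tensor products
-/

set_option autoImplicit false

open scoped TensorProduct Topology
open UniformSpace

namespace Pool.Agent.Work.MP_09c931_an

universe u

section Completion

variable (E : Type*) [AddCommGroup E] [Module ℂ E] [UniformSpace E] [IsUniformAddGroup E]
  [UniformContinuousConstSMul ℂ E] [PolynormableSpace ℂ E]

variable {E} in
/-- The extension of a continuous seminorm to the completion. -/
noncomputable def extSeminorm (p : Seminorm ℂ E) (hp : Continuous p) :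
    Seminorm ℂ (Completion E) :=
  have huc : UniformContinuous p :=
    Seminorm.uniformContinuous_of_continuousAt_zero hp.continuousAt
  Seminorm.of (Completion.extension p)
    (fun x y => by
      induction x, y using Completion.induction_on₂ with
      | hp =>
        exact isClosed_le (Completion.continuous_extension.comp continuous_add)
          ((Completion.continuous_extension.comp continuous_fst).add
            (Completion.continuous_extension.comp continuous_snd))
      | ih x y =>
        rw [← Completion.coe_add, Completion.extension_coe huc, Completion.extension_coe huc,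
          Completion.extension_coe huc]
        exact map_add_le_add p x y)
    (fun c x => by
      induction x using Completion.induction_on with
      | hp =>
        exact isClosed_eq (Completion.continuous_extension.comp (continuous_const_smul c))
          (continuous_const.mul Completion.continuous_extension)
      | ih x =>
        rw [← Completion.coe_smul, Completion.extension_coe huc, Completion.extension_coe huc]
        exact map_smul_eq_mul p c x)

variable {E} in
theorem continuous_extSeminorm (p : Seminorm ℂ E) (hp : Continuous p) :
    Continuous (extSeminorm p hp) := Completion.continuous_extension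

variable {E} in
theorem extSeminorm_coe (p : Seminorm ℂ E) (hp : Continuous p) (x : E) :
    extSeminorm p hp (x : Completion E) = p x :=
  Completion.extension_coe (Seminorm.uniformContinuous_of_continuousAt_zero hp.continuousAt) x

instance instPNCompletion : PolynormableSpace ℂ (Completion E) where
  withSeminorms' := by
    apply (SeminormFamily.withSeminorms_iff_nhds_eq_iInf _).2
    apply le_antisymm
    · apply le_iInf
      rintro ⟨p, hp⟩
      rw [← Filter.map_le_iff_le_comap]
      have := hp.tendsto (0 : Completion E)
      rw [map_zero] at this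
      exact this
    · intro V hV
      obtain ⟨W, hW, hWc, hWV⟩ := exists_mem_nhds_isClosed_subset hV
      have h1 : ((↑) : E → Completion E) ⁻¹' W ∈ 𝓝 (0 : E) := by
        apply (Completion.continuous_coe E).continuousAt.preimage_mem_nhds
        rw [Completion.coe_zero]
        exact hW
      obtain ⟨p, hp, hpW⟩ := exists_seminorm_ball_subset h1
      have h2 : {x : Completion E | extSeminorm p hp x < 1} ⊆ W := by
        intro x hx
        have ho : IsOpen {x : Completion E | extSeminorm p hp x < 1} :=
          isOpen_lt (continuous_extSeminorm p hp) continuous_const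
        have hd : Dense (Set.range ((↑) : E → Completion E)) := Completion.denseRange_coe
        have h3 := hd.open_subset_closure_inter ho hx
        refine closure_minimal ?_ hWc h3
        rintro _ ⟨hy, ⟨y, rfl⟩⟩
        apply hpW
        rw [← extSeminorm_coe p hp y]
        exact hy
      refine Filter.mem_of_superset ?_ (h2.trans hWV)
      refine Filter.mem_iInf_of_mem ⟨extSeminorm p hp, continuous_extSeminorm p hp⟩ ?_
      refine ⟨Set.Iio 1, Iio_mem_nhds one_pos, fun x hx => hx⟩

end Completion

/-- The completion of a locally convex space, bundled. -/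
noncomputable def complLCS (E : Type u) [AddCommGroup E] [Module ℂ E] [UniformSpace E]
    [IsUniformAddGroup E] [UniformContinuousConstSMul ℂ E] [PolynormableSpace ℂ E] : LCS.{u} where
  S := Completion E

section Tensor

variable {E F : LCS.{u}} {E' F' : Type u} [AddCommGroup E'] [Module ℂ E'] [TopologicalSpace E']
  [AddCommGroup F'] [Module ℂ F'] [TopologicalSpace F']

/-- The map `(x, y) ↦ x ⊗ y` into the completed projective tensor product of `E' ≃ E` and
`F' ≃ F`. -/
noncomputable def ctm (eE : E.S ≃L[ℂ] E') (eF : F.S ≃L[ℂ] F') :
    Bil E F (complLCS (PTensor E' F')) where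
  f x y := (tm (eE x) (eF y) : CTensor E' F')
  add_left x x' y := by
    change (tm (eE (x + x')) (eF y) : CTensor E' F') = tm (eE x) (eF y) + tm (eE x') (eF y)
    rw [map_add, add_tm, Completion.coe_add]
  add_right x y y' := by
    change (tm (eE x) (eF (y + y')) : CTensor E' F') = tm (eE x) (eF y) + tm (eE x) (eF y')
    rw [map_add, tm_add, Completion.coe_add]
  smul_left c x y := by
    change (tm (eE (c • x)) (eF y) : CTensor E' F') = c • (tm (eE x) (eF y) : CTensor E' F')
    rw [map_smul, smul_tm, Completion.coe_smul]
  smul_right c x y := by
    change (tm (eE x) (eF (c • y)) : CTensor E' F') = c • (tm (eE x) (eF y) : CTensor E' F')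
    rw [map_smul, tm_smul, Completion.coe_smul]
  cont := by
    have h : BB (LinearMap.mk₂ ℂ (fun x y => tm (eE x) (eF y))
        (fun x x' y => by rw [map_add, add_tm]) (fun c x y => by rw [map_smul, smul_tm])
        (fun x y y' => by rw [map_add, tm_add]) (fun c x y => by rw [map_smul, tm_smul]) :
        E.S →ₗ[ℂ] F.S →ₗ[ℂ] PTensor E' F') := by
      apply BB.of_withSeminorms (withSeminorms_proj E' F')
      rintro ⟨⟨p, hp⟩, ⟨q, hq⟩⟩
      refine ⟨p.comp (eE : E.S →ₗ[ℂ] E'), hp.comp eE.continuous,
        q.comp (eF : F.S →ₗ[ℂ] F'), hq.comp eF.continuous, fun x y => ?_⟩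
      exact projSeminorm_tmul_le p q _ _
    exact (Completion.continuous_coe (PTensor E' F')).comp h.continuous

theorem isTensor_ctm (eE : E.S ≃L[ℂ] E') (eF : F.S ≃L[ℂ] F') : (ctm eE eF).IsTensor := by
  intro G β
  have hB : BB (LinearMap.mk₂ ℂ (fun x y => β.f (eE.symm x) (eF.symm y))
      (fun x x' y => by rw [map_add, β.add_left]) (fun c x y => by rw [map_smul, β.smul_left])
      (fun x y y' => by rw [map_add, β.add_right]) (fun c x y => by rw [map_smul, β.smul_right]) :
      E' →ₗ[ℂ] F' →ₗ[ℂ] G.S) := by
    have h1 : BB (LinearMap.mk₂ ℂ β.f β.add_left β.smul_left β.add_right β.smul_right) :=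
      BB.of_continuous β.cont
    intro s hs
    obtain ⟨p, hp, q, hq, h⟩ := h1 s hs
    refine ⟨p.comp (eE.symm : E' →ₗ[ℂ] E.S), hp.comp eE.symm.continuous,
      q.comp (eF.symm : F' →ₗ[ℂ] F.S), hq.comp eF.symm.continuous, fun x y => ?_⟩
    exact h _ _
  have : UniformContinuousConstSMul ℂ G.S := by
    have := (PolynormableSpace.withSeminorms ℂ G.S).continuousSMul
    exact uniformContinuousConstSMul_of_continuousConstSMul ℂ G.S
  refine ⟨(PTensor.lift _ hB).fromCompletion, ?_, ?_⟩
  · intro x y
    refine (ContinuousLinearMap.fromCompletion_apply_coe (PTensor.lift _ hB) _).trans ?_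
    rw [PTensor.lift_tm]
    change β.f (eE.symm (eE x)) (eF.symm (eF y)) = β.f x y
    rw [ContinuousLinearEquiv.symm_apply_apply, ContinuousLinearEquiv.symm_apply_apply]
  · change ∀ φ : CTensor E' F' →L[ℂ] G.S,
      (∀ x y, φ (tm (eE x) (eF y) : CTensor E' F') = β.f x y) → φ = _
    intro φ hφ
    symm
    apply ContinuousLinearMap.fromCompletion_unique
    intro u
    induction u using PTensor.induction with
    | h0 => rw [Completion.coe_zero, map_zero, map_zero]
    | ha u v hu hv => rw [Completion.coe_add, map_add, map_add, hu, hv]
    | ht x y =>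
      rw [PTensor.lift_tm]
      change β.f (eE.symm x) (eF.symm y) = _
      rw [← hφ, ContinuousLinearEquiv.apply_symm_apply, ContinuousLinearEquiv.apply_symm_apply]

/-- Completed projective tensor products exist. -/
theorem exists_isTensor (E F : LCS.{u}) : ∃ (T : LCS.{u}) (τ : Bil E F T), τ.IsTensor :=
  ⟨_, ctm (ContinuousLinearEquiv.refl ℂ E.S) (ContinuousLinearEquiv.refl ℂ F.S),
    isTensor_ctm _ _⟩

end Tensor

section Extend

variable {E : Type u} [AddCommGroup E] [Module ℂ E] [UniformSpace E] [IsUniformAddGroup E]
  [UniformContinuousConstSMul ℂ E] [PolynormableSpace ℂ E] {F G : LCS.{u}}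

/-- A jointly continuous bilinear map extends to the completion of the first factor. -/
theorem exists_extend (B : E →ₗ[ℂ] F.S →ₗ[ℂ] G.S) (hB : BB B) :
    ∃ β : Bil (complLCS E) F G, ∀ (x : E) (y : F.S), β.f (x : Completion E) y = B x y := by
  have : UniformContinuousConstSMul ℂ G.S := by
    have := (PolynormableSpace.withSeminorms ℂ G.S).continuousSMul
    exact uniformContinuousConstSMul_of_continuousConstSMul ℂ G.S
  have hc : Continuous fun z : E × F.S => B z.1 z.2 := hB.continuous
  let φ : E →+ F.S →+ G.S :=
    AddMonoidHom.mk' (fun x => (B x).toAddMonoidHom) (fun x y => by ext z; simp)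
  have de : IsDenseInducing (Completion.toCompl : E →+ Completion E) :=
    Completion.isDenseInducing_coe
  have df : IsDenseInducing (AddMonoidHom.id F.S) := ⟨⟨by simp [induced_id]⟩, fun x =>
    subset_closure ⟨x, rfl⟩⟩
  have h1 : Continuous (IsDenseInducing.extend (de.prodMap df)
      (fun p : E × F.S => φ p.1 p.2)) := IsDenseInducing.extend_Z_bilin de df hc
  let g : Completion E → F.S → G.S := fun x y =>
    IsDenseInducing.extend (de.prodMap df) (fun p : E × F.S => φ p.1 p.2) (x, y)
  have hg : Continuous fun z : Completion E × F.S => g z.1 z.2 := h1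
  have hg' : ∀ y, Continuous fun x => g x y := fun y =>
    hg.comp (continuous_id.prodMk continuous_const)
  have hcoe : ∀ (x : E) (y : F.S), g (x : Completion E) y = B x y := fun x y =>
    IsDenseInducing.extend_eq (de.prodMap df) (f := fun p : E × F.S => φ p.1 p.2) hc (x, y)
  refine ⟨⟨g, ?_, ?_, ?_, ?_, hg⟩, hcoe⟩
  · change ∀ (x x' : Completion E) (y : F.S), g (x + x') y = g x y + g x' y
    intro x x' y
    induction x, x' using Completion.induction_on₂ with
    | hp =>
      exact isClosed_eq ((hg' y).comp continuous_add)
        (((hg' y).comp continuous_fst).add ((hg' y).comp continuous_snd))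
    | ih x x' => rw [← Completion.coe_add, hcoe, hcoe, hcoe, map_add, LinearMap.add_apply]
  · change ∀ (x : Completion E) (y y' : F.S), g x (y + y') = g x y + g x y'
    intro x y y'
    induction x using Completion.induction_on with
    | hp => exact isClosed_eq (hg' _) ((hg' y).add (hg' y'))
    | ih x => rw [hcoe, hcoe, hcoe, map_add]
  · change ∀ (c : ℂ) (x : Completion E) (y : F.S), g (c • x) y = c • g x y
    intro c x y
    induction x using Completion.induction_on with
    | hp =>
      exact isClosed_eq ((hg' y).comp (continuous_const_smul c)) ((hg' y).const_smul c)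
    | ih x => rw [← Completion.coe_smul, hcoe, hcoe, map_smul, LinearMap.smul_apply]
  · change ∀ (c : ℂ) (x : Completion E) (y : F.S), g x (c • y) = c • g x y
    intro c x y
    induction x using Completion.induction_on with
    | hp => exact isClosed_eq (hg' _) ((hg' y).const_smul c)
    | ih x => rw [hcoe, hcoe, map_smul]

end Extend

end Pool.Agent.Work.MP_09c931_an
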