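import Pool.Agent.Work.MP_09c931_an.Homology

/-!
# The Arens-Michael algebra `C(T, ℂ)` for a locally compact Hausdorff space `T`
-/

set_option autoImplicit false

open scoped Topology
open Set

namespace Pool.Agent.Work.MP_09c931_an

section

variable (T : Type) [TopologicalSpace T]

instance instUAG : IsUniformAddGroup C(T, ℂ) :=
  ContinuousMap.isUniformEmbedding_toUniformOnFunIsCompact.isUniformInducing.isUniformAddGroup
    ({ toFun := ContinuousMap.toUniformOnFunIsCompact
       map_zero' := rfl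
       map_add' := fun _ _ => rfl } : C(T, ℂ) →+ _)

instance instUCCS : UniformContinuousConstSMul ℂ C(T, ℂ) := by
  have : ContinuousConstSMul ℂ C(T, ℂ) := inferInstance
  exact uniformContinuousConstSMul_of_continuousConstSMul ℂ C(T, ℂ)

/-- Restriction to `K` as a linear map. -/
noncomputable def restrictLin (K : Set T) : C(T, ℂ) →ₗ[ℂ] C(K, ℂ) where
  toFun f := f.restrict K
  map_add' _ _ := rfl
  map_smul' _ _ := rfl

/-- The seminorm `f ↦ sup_K |f|` on `C(T, ℂ)`, for a compact set `K`. -/
noncomputable def supSeminorm (K : {K : Set T // IsCompact K}) : Seminorm ℂ C(T, ℂ) :=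
  haveI : CompactSpace K.1 := isCompact_iff_compactSpace.1 K.2
  (normSeminorm ℂ C(K.1, ℂ)).comp (restrictLin T K.1)

theorem withSeminorms_sup : WithSeminorms
    (SeminormFamily.sigma (fun (K : {K : Set T // IsCompact K}) (_ : Fin 1) => supSeminorm T K)) := by
  have h1 : (inferInstance : TopologicalSpace C(T, ℂ)) =
      ⨅ K : {K : Set T // IsCompact K}, TopologicalSpace.induced (restrictLin T K.1)
        (ContinuousMap.compactOpen) := by
    have := ContinuousMap.compactOpen_eq_iInf_induced (X := T) (Y := ℂ)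
    rw [iInf_subtype']  at this
    exact this
  have h2 := withSeminorms_iInf (𝕜 := ℂ) (E := C(T, ℂ))
    (t := fun K : {K : Set T // IsCompact K} => TopologicalSpace.induced (restrictLin T K.1)
        (ContinuousMap.compactOpen))
    (p := fun (K : {K : Set T // IsCompact K}) (_ : Fin 1) => supSeminorm T K) (by
      intro K
      haveI : CompactSpace K.1 := isCompact_iff_compactSpace.1 K.2
      exact LinearMap.withSeminorms_induced (norm_withSeminorms ℂ C(K.1, ℂ)) (restrictLin T K.1))
  rw [← h1] at h2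
  exact h2

theorem supSeminorm_lt {K : {K : Set T // IsCompact K}} {f : C(T, ℂ)} {r : ℝ} (hr : 0 < r) :
    supSeminorm T K f < r ↔ ∀ x ∈ K.1, ‖f x‖ < r := by
  haveI : CompactSpace K.1 := isCompact_iff_compactSpace.1 K.2
  have h := ContinuousMap.norm_lt_iff (restrictLin T K.1 f) hr
  have h' : supSeminorm T K f = ‖restrictLin T K.1 f‖ := rfl
  rw [h', h]
  constructor
  · intro h x hx
    exact h ⟨x, hx⟩
  · intro h x
    exact h x.1 x.2

theorem supSeminorm_mul (K : {K : Set T // IsCompact K}) (f g : C(T, ℂ)) :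
    supSeminorm T K (f * g) ≤ supSeminorm T K f * supSeminorm T K g := by
  haveI : CompactSpace K.1 := isCompact_iff_compactSpace.1 K.2
  exact norm_mul_le (restrictLin T K.1 f) (restrictLin T K.1 g)

instance instPN : PolynormableSpace ℂ C(T, ℂ) := (withSeminorms_sup T).toPolynormableSpace

theorem isArensMichael_contMap : IsArensMichael C(T, ℂ) :=
  ⟨_, ⟨⟨⟨∅, isCompact_empty⟩, 0⟩⟩, _, withSeminorms_sup T, fun i f g => supSeminorm_mul T i.1 f g⟩

/-- A basic neighbourhood of `0` in `C(T, ℂ)`. -/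
theorem exists_compact_of_mem_nhds {V : Set C(T, ℂ)} (hV : V ∈ 𝓝 (0 : C(T, ℂ))) :
    ∃ K : Set T, IsCompact K ∧ ∃ r : ℝ, 0 < r ∧ ∀ f : C(T, ℂ), (∀ x ∈ K, ‖f x‖ < r) → f ∈ V := by
  obtain ⟨s, r, hr, hs⟩ := ((withSeminorms_sup T).mem_nhds_iff 0 V).1 hV
  refine ⟨⋃ i ∈ s, i.1.1, s.isCompact_biUnion fun i _ => i.1.2, r, hr, fun f hf => ?_⟩
  apply hs
  rw [Seminorm.mem_ball_zero]
  apply Seminorm.finset_sup_apply_lt hr
  intro i hi
  exact (supSeminorm_lt T hr).2 fun x hx => hf x (mem_biUnion hi hx)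

end

end Pool.Agent.Work.MP_09c931_an
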