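import Pool.Agent.Work.MP_09c931_an.BRAI

/-!
# Boundedness and convergence of the approximate diagonals
-/

set_option autoImplicit false

open scoped Topology TensorProduct Pointwise
open UniformSpace

namespace Pool.Agent.Work.MP_09c931_an

/-- The linear map `a ↦ op (inr a)`. -/
noncomputable def opInrP : CW →ₗ[ℂ] PlusOp CW :=
  (opP CW : Plus CW →ₗ[ℂ] PlusOp CW).comp inrP

theorem opInrP_apply (a : CW) : opInrP a = opP CW (inrP a) := rfl

theorem continuous_opInrP : Continuous opInrP := (continuous_opP CW).comp continuous_inrP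

/-- Signed sums of the form `∑ ± (b - β) χ`. -/
theorem signed_sum (F : Finset W1) (T : Finset (Finset W1)) (g : Finset W1 → CW) (s : W1) :
    (∑ G ∈ F.powerset, sgn T G • (g G * chi F G)) s = sgn T (cut F s) * g (cut F s) s := by
  have h : (∑ G ∈ F.powerset, sgn T G • (g G * chi F G))
      = ∑ G ∈ F.powerset, (sgn T G • g G) * chi F G := by
    apply Finset.sum_congr rfl
    intro G _
    rw [smul_mul_assoc]
  rw [h, sum_chi_apply]
  simp

theorem signed_sum_norm (F : Finset W1) (T : Finset (Finset W1)) (g : Finset W1 → CW) (s : W1) :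
    ‖(∑ G ∈ F.powerset, sgn T G • (g G * chi F G)) s‖ = ‖g (cut F s) s‖ := by
  rw [signed_sum, norm_mul, sgn_norm, one_mul]

theorem map_signed_sum {V : Type*} [AddCommGroup V] [Module ℂ V] (L : CW →ₗ[ℂ] V)
    (F : Finset W1) (T : Finset (Finset W1)) (g : Finset W1 → CW) :
    ∑ G ∈ F.powerset, sgn T G • L (g G * chi F G) =
      L (∑ G ∈ F.powerset, sgn T G • (g G * chi F G)) := by
  rw [map_sum]
  simp_rw [map_smul]

/-- The key estimate. -/
theorem proj_bound (p : Seminorm ℂ (Plus CW)) (q : Seminorm ℂ (PlusOp CW)) {P Q : ℝ}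
    (F : Finset W1) (g h : Finset W1 → CW)
    (hg : ∀ T, p (inrP (∑ G ∈ F.powerset, sgn T G • (g G * chi F G))) ≤ P)
    (hh : ∀ T, q (opInrP (∑ G ∈ F.powerset, sgn T G • (h G * chi F G))) ≤ Q) :
    projSeminorm p q (∑ G ∈ F.powerset, tm (inrP (g G * chi F G)) (opInrP (h G * chi F G))) ≤
      P * Q := by
  refine projSeminorm_sum_le F.powerset (fun G => inrP (g G * chi F G))
    (fun G => opInrP (h G * chi F G)) ?_ ?_
  · intro T
    rw [map_signed_sum]
    exact hg T
  · intro T
    rw [map_signed_sum]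
    exact hh T

theorem bounded_mF : Bornology.IsVonNBounded ℂ (Set.range mF) := by
  rw [(withSeminorms_proj (Plus CW) (PlusOp CW)).isVonNBounded_iff_seminorm_bounded]
  rintro ⟨⟨p, hp⟩, ⟨q, hq⟩⟩
  obtain ⟨P, hP, hP'⟩ := exists_bound (p := p.comp inrP) (hp.comp continuous_inrP)
  obtain ⟨Q, hQ, hQ'⟩ := exists_bound (p := q.comp opInrP) (hq.comp continuous_opInrP)
  refine ⟨P * Q + p fP * q (opP CW fP) + 1, by positivity, ?_⟩
  rintro _ ⟨F, rfl⟩
  have h1 : projSeminorm p q (∑ G ∈ F.powerset, tm (inrP (chi F G)) (opP CW (inrP (chi F G)))) ≤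
      P * Q := by
    have := proj_bound p q (P := P) (Q := Q) F (fun _ => 1) (fun _ => 1)
      (fun T => hP' _ fun s => by rw [signed_sum_norm]; simp)
      (fun T => hQ' _ fun s => by rw [signed_sum_norm]; simp)
    simpa only [one_mul, opInrP_apply] using this
  have h2 : projSeminorm p q (tm fP (opP CW fP)) ≤ p fP * q (opP CW fP) := projSeminorm_tmul_le _ _ _ _
  have h3 : projSeminorm p q (mF F) ≤ P * Q + p fP * q (opP CW fP) :=
    (map_add_le_add (projSeminorm p q) _ _).trans (add_le_add h1 h2)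
  exact lt_of_le_of_lt h3 (lt_add_one _)

/-- The difference of the left and right multiplications, evaluated on the approximate
diagonal. -/
theorem diff_mF (y : Plus CW) (F : Finset W1) (β : Finset W1 → ℂ) :
    (tm y 1 - tm 1 (opP CW y) : PreEnv CW) * mF F =
      (∑ G ∈ F.powerset, tm (inrP ((evP y - β G • 1) * chi F G)) (opInrP (1 * chi F G))) -
      (∑ G ∈ F.powerset, tm (inrP (1 * chi F G)) (opInrP ((evP y - β G • 1) * chi F G))) := by
  unfold mF
  rw [mul_add, sub_mul, sub_mul, tm_mul_tm, tm_mul_tm, Finset.mul_sum, Finset.mul_sum, one_mul,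
    one_mul, opP_mul, mul_fP, fP_mul, map_smul, smul_tm, tm_smul, sub_self, add_zero,
    ← Finset.sum_sub_distrib, ← Finset.sum_sub_distrib]
  apply Finset.sum_congr rfl
  intro G _
  rw [tm_mul_tm, tm_mul_tm, one_mul, one_mul, opP_mul, mul_inrP, inrP_mul, sub_mul, map_sub,
    map_sub, sub_tm, tm_sub, smul_mul_assoc, one_mul, map_smul, map_smul, smul_tm, tm_smul,
    opInrP_apply, opInrP_apply]
  abel

theorem tendsto_diff (y : Plus CW) :
    Filter.Tendsto (fun F => (tm y 1 - tm 1 (opP CW y) : PreEnv CW) * mF F) Filter.atTop (𝓝 0) := by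
  rw [(withSeminorms_proj (Plus CW) (PlusOp CW)).tendsto_nhds]
  rintro ⟨⟨p, hp⟩, ⟨q, hq⟩⟩ ε hε
  obtain ⟨P, hP, hP'⟩ := exists_bound (p := p.comp inrP) (hp.comp continuous_inrP)
  obtain ⟨Q, hQ, hQ'⟩ := exists_bound (p := q.comp opInrP) (hq.comp continuous_opInrP)
  obtain ⟨α₁, r₁, hr₁, h₁⟩ := exists_small (p := p.comp inrP) (hp.comp continuous_inrP)
    (η := ε / (4 * Q)) (by positivity)
  obtain ⟨α₂, r₂, hr₂, h₂⟩ := exists_small (p := q.comp opInrP) (hq.comp continuous_opInrP)
    (η := ε / (4 * P)) (by positivity)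
  set α := max α₁ α₂
  obtain ⟨F₀, hF₀⟩ := exists_cuts (evP y) (lt_min hr₁ hr₂) α
  filter_upwards [Filter.eventually_ge_atTop F₀] with F hF
  -- choose the constants
  classical
  set β : Finset W1 → ℂ := fun G => if h : ∃ s, s ≤ α ∧ cut F s = G then evP y h.choose else 0
    with hβ
  have hsmall : ∀ s, s ≤ α → ‖(evP y - β (cut F s) • (1 : CW)) s‖ < min r₁ r₂ := by
    intro s hs
    have hex : ∃ t, t ≤ α ∧ cut F t = cut F s := ⟨s, hs, rfl⟩
    have hval : β (cut F s) = evP y hex.choose := dif_pos hex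
    have h3 := hF₀ F hF s hex.choose hs hex.choose_spec.1 hex.choose_spec.2.symm
    simpa [hval] using h3
  have e1 : projSeminorm p q
      (∑ G ∈ F.powerset, tm (inrP ((evP y - β G • 1) * chi F G)) (opInrP (1 * chi F G))) ≤
      ε / (4 * Q) * Q := by
    refine proj_bound p q F (fun G => evP y - β G • 1) (fun _ => 1) (fun T => ?_) (fun T => ?_)
    · apply (h₁ _ _).le
      intro s hs
      rw [signed_sum_norm]
      exact (hsmall s (hs.trans (le_max_left _ _))).trans_le (min_le_left _ _)
    · exact hQ' _ fun s => by rw [signed_sum_norm]; simp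
  have e2 : projSeminorm p q
      (∑ G ∈ F.powerset, tm (inrP (1 * chi F G)) (opInrP ((evP y - β G • 1) * chi F G))) ≤
      P * (ε / (4 * P)) := by
    refine proj_bound p q F (fun _ => 1) (fun G => evP y - β G • 1) (fun T => ?_) (fun T => ?_)
    · exact hP' _ fun s => by rw [signed_sum_norm]; simp
    · apply (h₂ _ _).le
      intro s hs
      rw [signed_sum_norm]
      exact (hsmall s (hs.trans (le_max_right _ _))).trans_le (min_le_right _ _)
  change projSeminorm p q ((tm y 1 - tm 1 (opP CW y)) * mF F - 0 : PreEnv CW) < ε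
  rw [sub_zero, diff_mF y F β]
  refine (map_sub_le_add (projSeminorm p q) _ _).trans_lt ?_
  have e3 : ε / (4 * Q) * Q = ε / 4 := by field_simp
  have e4 : P * (ε / (4 * P)) = ε / 4 := by field_simp
  rw [e3] at e1
  rw [e4] at e2
  exact lt_of_le_of_lt (add_le_add e1 e2) (by linarith)

/-! ### Passing to the completion -/

section General

variable {R : Type*} [Ring R] [Algebra ℂ R] [TopologicalSpace R] [IsTopologicalRing R]
  [ContinuousConstSMul ℂ R]

/-- Multiplication is uniformly small on (small) × (bounded). -/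
theorem exists_nhds_mul_bounded {S : Set R} (hS : Bornology.IsVonNBounded ℂ S) {V : Set R}
    (hV : V ∈ 𝓝 (0 : R)) : ∃ U ∈ 𝓝 (0 : R), ∀ z ∈ U, ∀ m ∈ S, z * m ∈ V := by
  have h0 : (fun z : R × R => z.1 * z.2) ⁻¹' V ∈ 𝓝 ((0 : R), (0 : R)) := by
    apply continuous_mul.continuousAt.preimage_mem_nhds
    simpa using hV
  rw [nhds_prod_eq, Filter.mem_prod_iff] at h0
  obtain ⟨U₁, hU₁, V₁, hV₁, h⟩ := h0
  have h1 := hS hV₁
  rw [absorbs_iff_eventually_cobounded_mapsTo] at h1
  obtain ⟨c, hc, hc0⟩ := (h1.and (Bornology.eventually_ne_cobounded (0 : ℂ))).exists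
  refine ⟨(fun z => c • z) ⁻¹' U₁, ?_, ?_⟩
  · apply (continuous_const_smul c).continuousAt.preimage_mem_nhds
    simpa using hU₁
  · intro z hz m hm
    have h2 : c⁻¹ • m ∈ V₁ := hc hm
    have h3 : (c • z) * (c⁻¹ • m) = z * m := by
      rw [smul_mul_smul_comm, mul_inv_cancel₀ hc0, one_smul]
    rw [← h3]
    exact h (Set.mk_mem_prod hz h2)

end General

/-- The canonical map into the completion as a continuous linear map. -/
noncomputable def coeL : PreEnv CW →L[ℂ] Env CW where
  toFun u := (u : Env CW)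
  map_add' := Completion.coe_add
  map_smul' := Completion.coe_smul
  cont := Completion.continuous_coe _

theorem coeL_apply (u : PreEnv CW) : coeL u = (u : Env CW) := rfl

theorem bounded_coe_mF : Bornology.IsVonNBounded ℂ (Set.range fun F => ((mF F : PreEnv CW) : Env CW)) := by
  have h := bounded_mF.image coeL
  rw [← Set.range_comp] at h
  exact h

theorem bounded_eF : Bornology.IsVonNBounded ℂ (Set.range eF) := by
  have h1 : Bornology.IsVonNBounded ℂ ({(1 : PreEnv CW)} - Set.range mF) :=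
    (Bornology.isVonNBounded_singleton _).sub bounded_mF
  refine (h1.image coeL).subset ?_
  rintro _ ⟨F, rfl⟩
  exact ⟨1 - mF F, Set.sub_mem_sub rfl ⟨F, rfl⟩, rfl⟩

/-- The map `y ↦ y ⊗ 1`. -/
noncomputable def tmL : Plus CW →L[ℂ] PreEnv CW where
  toFun y := tm y 1
  map_add' y z := add_tm y z 1
  map_smul' c y := smul_tm c y 1
  cont := by
    let B : Plus CW →ₗ[ℂ] PlusOp CW →ₗ[ℂ] PreEnv CW :=
      (TensorProduct.mk ℂ (Plus CW) (PlusOp CW) :
        Plus CW →ₗ[ℂ] PlusOp CW →ₗ[ℂ] Plus CW ⊗[ℂ] PlusOp CW)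
    have h : BB B := by
      apply BB.of_withSeminorms (withSeminorms_proj _ _)
      rintro ⟨⟨p, hp⟩, ⟨q, hq⟩⟩
      exact ⟨p, hp, q, hq, fun x y => projSeminorm_tmul_le p q x y⟩
    exact h.continuous.comp (continuous_id.prodMk continuous_const)

theorem tmL_apply (y : Plus CW) : tmL y = tm y 1 := rfl

/-- The map `x ↦ x - π₊(x) ⊗ 1` followed by multiplication by the approximate diagonal. -/
noncomputable def DF (x : Env CW) (F : Finset W1) : Env CW :=
  x * (mF F : Env CW) - ((tmL (piPlus CW x) : PreEnv CW) : Env CW) * (mF F : Env CW)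

theorem DF_add (x y : Env CW) (F : Finset W1) : DF (x + y) F = DF x F + DF y F := by
  unfold DF
  rw [map_add, map_add, Completion.coe_add, add_mul, add_mul]
  abel

theorem tendsto_DF_coe (u : PreEnv CW) :
    Filter.Tendsto (DF (u : Env CW)) Filter.atTop (𝓝 0) := by
  induction u using PTensor.induction with
  | h0 =>
    have : DF ((0 : PreEnv CW) : Env CW) = fun _ => 0 := by
      funext F
      unfold DF
      rw [Completion.coe_zero, map_zero, map_zero, Completion.coe_zero, zero_mul, sub_zero]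
    rw [this]
    exact tendsto_const_nhds
  | ht a b' =>
    obtain ⟨b, rfl⟩ : ∃ b, b' = opP CW b := ⟨(opP CW).symm b', rfl⟩
    have h1 : DF ((tm a (opP CW b) : PreEnv CW) : Env CW) = fun F =>
        -(((tm a 1 : PreEnv CW) : Env CW) *
          (((tm b 1 - tm 1 (opP CW b)) * mF F : PreEnv CW) : Env CW)) := by
      funext F
      unfold DF
      rw [piPlus_tm, tmL_apply, ← Completion.coe_mul, ← Completion.coe_mul, ← Completion.coe_mul,
        ← Completion.coe_sub, ← Completion.coe_neg]
      congr 1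
      rw [← mul_assoc, mul_sub, tm_mul_tm, tm_mul_tm, mul_one, mul_one, one_mul, sub_mul, neg_sub]
    rw [h1]
    have h2 := tendsto_diff b
    have h3 := (Completion.continuous_coe (PreEnv CW)).continuousAt.tendsto.comp h2
    have h4 := (Filter.Tendsto.const_mul ((tm a 1 : PreEnv CW) : Env CW) h3).neg
    rw [Completion.coe_zero, mul_zero, neg_zero] at h4
    exact h4
  | ha u v hu hv =>
    have h1 : DF ((u + v : PreEnv CW) : Env CW) = fun F => DF (u : Env CW) F + DF (v : Env CW) F := by
      funext F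
      rw [Completion.coe_add, DF_add]
    rw [h1]
    simpa using hu.add hv

theorem tendsto_DF (x : Env CW) : Filter.Tendsto (DF x) Filter.atTop (𝓝 0) := by
  intro V hV
  rw [Filter.mem_map]
  obtain ⟨V₁, hV₁, h₁⟩ := exists_nhds_zero_half hV
  obtain ⟨V₂, hV₂, h₂⟩ := exists_nhds_half_neg hV₁
  obtain ⟨U, hU, h₃⟩ := exists_nhds_mul_bounded bounded_coe_mF hV₂
  have hW : {z : Env CW | z ∈ U ∧ ((tmL (piPlus CW z) : PreEnv CW) : Env CW) ∈ U} ∈ 𝓝 (0 : Env CW) := by
    apply Filter.inter_mem hU
    have hc : Continuous fun z : Env CW => ((tmL (piPlus CW z) : PreEnv CW) : Env CW) :=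
      (Completion.continuous_coe (PreEnv CW)).comp (tmL.continuous.comp (piPlus CW).continuous)
    have h0 : ((tmL (piPlus CW (0 : Env CW)) : PreEnv CW) : Env CW) = 0 := by
      rw [map_zero, map_zero, Completion.coe_zero]
    exact hc.continuousAt.preimage_mem_nhds (by rw [h0]; exact hU)
  -- approximate `x` by an algebraic tensor
  have hW' : {w : Env CW | x - w ∈ {z : Env CW | z ∈ U ∧
      ((tmL (piPlus CW z) : PreEnv CW) : Env CW) ∈ U}} ∈ 𝓝 x := by
    have hc : Continuous fun w : Env CW => x - w := continuous_const.sub continuous_id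
    exact hc.continuousAt.preimage_mem_nhds (by rw [sub_self]; exact hW)
  obtain ⟨_, hw, ⟨u, rfl⟩⟩ :=
    mem_closure_iff_nhds.1 ((Completion.denseRange_coe (α := PreEnv CW)) x) _ hW'
  have hlim := tendsto_DF_coe u hV₁
  rw [Filter.mem_map] at hlim
  filter_upwards [hlim] with F hF
  have h4 : DF x F = DF (x - (u : Env CW)) F + DF (u : Env CW) F := by
    rw [← DF_add, sub_add_cancel]
  change DF x F ∈ V
  rw [h4]
  apply h₁ _ _ _ hF
  exact h₂ _ (h₃ _ hw.1 _ ⟨F, rfl⟩) _ (h₃ _ hw.2 _ ⟨F, rfl⟩)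

/-- `I^Δ` has a bounded right approximate identity for `A = C(ω₁)`. -/
theorem hasBRAI : HasBRAI C(W1, ℂ) := by
  refine ⟨Finset W1, inferInstance, inferInstance, inferInstance, eF, eF_mem, bounded_eF, ?_⟩
  intro x hx
  have hx' : piPlus CW x = 0 := hx
  have h := tendsto_DF x
  have h1 : (fun F => x * eF F) = fun F => x - DF x F := by
    funext F
    unfold DF eF
    rw [hx', map_zero, Completion.coe_zero, zero_mul, sub_zero, Completion.coe_sub,
      Completion.coe_one, mul_sub, mul_one]
  rw [h1]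
  simpa using h.const_sub x

end Pool.Agent.Work.MP_09c931_an
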