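import Pool.Agent.Work.MP_09c931_an.NotAmenable

/-!
# Finite partitions of `ω₁` into clopen sets
-/

set_option autoImplicit false

open scoped Topology TensorProduct
open Set UniformSpace

namespace Pool.Agent.Work.MP_09c931_an

/-- The set of all `c ∈ F` with `s ≤ c`. -/
noncomputable def cut (F : Finset W1) (s : W1) : Finset W1 := F.filter (fun c => s ≤ c)

theorem mem_cut {F : Finset W1} {s c : W1} : c ∈ cut F s ↔ c ∈ F ∧ s ≤ c := by
  unfold cut
  exact Finset.mem_filter

theorem cut_eq_iff {F : Finset W1} {s t : W1} :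
    cut F s = cut F t ↔ ∀ c ∈ F, (s ≤ c ↔ t ≤ c) := by
  constructor
  · intro h c hc
    have h1 : c ∈ cut F s ↔ c ∈ cut F t := by rw [h]
    rw [mem_cut, mem_cut] at h1
    constructor
    · intro h2
      exact (h1.1 ⟨hc, h2⟩).2
    · intro h2
      exact (h1.2 ⟨hc, h2⟩).2
  · intro h
    ext c
    rw [mem_cut, mem_cut]
    constructor
    · rintro ⟨h1, h2⟩
      exact ⟨h1, (h c h1).1 h2⟩
    · rintro ⟨h1, h2⟩
      exact ⟨h1, (h c h1).2 h2⟩

theorem isLocallyConstant_cut (F : Finset W1) : IsLocallyConstant (cut F) := by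
  rw [IsLocallyConstant.iff_exists_open]
  intro s
  refine ⟨⋂ c ∈ F, {t | s ≤ c ↔ t ≤ c}, ?_, ?_, ?_⟩
  · apply isOpen_biInter_finset
    intro c _
    by_cases h : s ≤ c
    · have : {t | s ≤ c ↔ t ≤ c} = Iic c := by ext t; simp [h]
      rw [this]
      exact W1.isOpen_Iic c
    · have : {t | s ≤ c ↔ t ≤ c} = Ioi c := by ext t; simp [h]
      rw [this]
      exact (W1.isClopen_Ioi c).isOpen
  · simp
  · intro t ht
    rw [cut_eq_iff]
    intro c hc
    have := mem_iInter₂.1 ht c hc
    exact this.symm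

/-- The characteristic function of `{s : cut F s = G}`. -/
noncomputable def chi (F G : Finset W1) : C(W1, ℂ) :=
  ind {s | cut F s = G} ((isLocallyConstant_cut F).isClopen_fiber G)

theorem chi_apply (F G : Finset W1) (s : W1) : chi F G s = if cut F s = G then 1 else 0 := by
  unfold chi
  split_ifs with h
  · exact ind_of_mem _ h
  · exact ind_of_notMem _ h

theorem cut_mem_powerset (F : Finset W1) (s : W1) : cut F s ∈ F.powerset :=
  Finset.mem_powerset.2 (Finset.filter_subset _ _)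

/-- Evaluation of a sum over the parts of the partition. -/
theorem sum_chi_apply (F : Finset W1) (g : Finset W1 → C(W1, ℂ)) (s : W1) :
    (∑ G ∈ F.powerset, g G * chi F G) s = g (cut F s) s := by
  rw [ContinuousMap.sum_apply, Finset.sum_eq_single (cut F s)]
  · rw [ContinuousMap.mul_apply, chi_apply, if_pos rfl, mul_one]
  · intro G _ hG
    rw [ContinuousMap.mul_apply, chi_apply, if_neg (fun h => hG h.symm), mul_zero]
  · intro h
    exact absurd (cut_mem_powerset F s) h

/-- A continuous function on `ω₁` has small oscillation on the part in `[0, α]` of each member of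
a sufficiently fine finite partition. -/
theorem exists_cuts (b : C(W1, ℂ)) {r : ℝ} (hr : 0 < r) (α : W1) :
    ∃ F₀ : Finset W1, ∀ F, F₀ ⊆ F → ∀ s t, s ≤ α → t ≤ α → cut F s = cut F t →
      ‖b s - b t‖ < r := by
  suffices h : ∃ F₀ : Finset W1, ∀ s t, s ≤ α → t ≤ α → cut F₀ s = cut F₀ t →
      ‖b s - b t‖ < r by
    obtain ⟨F₀, h0⟩ := h
    refine ⟨F₀, fun F hF s t hs ht hst => h0 s t hs ht ?_⟩
    rw [cut_eq_iff] at hst ⊢
    exact fun c hc => hst c (hF hc)
  induction α using WellFoundedLT.induction with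
  | ind α ih =>
    have hcont : {s | ‖b s - b α‖ < r / 2} ∈ 𝓝 α := by
      have hc : Continuous fun s => ‖b s - b α‖ := (b.continuous.sub continuous_const).norm
      have h2 : Iio (r / 2) ∈ 𝓝 ‖b α - b α‖ := Iio_mem_nhds (by simpa using half_pos hr)
      exact hc.continuousAt.preimage_mem_nhds h2
    by_cases hα : ∃ l, l < α
    · obtain ⟨γ, hγ, hγ2⟩ := exists_Ioc_subset_of_mem_nhds hcont hα
      obtain ⟨F₀, h0⟩ := ih γ hγ
      refine ⟨insert γ F₀, fun s t hs ht hst => ?_⟩
      rw [cut_eq_iff] at hst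
      by_cases hsγ : s ≤ γ
      · have htγ : t ≤ γ := (hst γ (Finset.mem_insert_self _ _)).1 hsγ
        apply h0 s t hsγ htγ
        rw [cut_eq_iff]
        exact fun c hc => hst c (Finset.mem_insert_of_mem hc)
      · have htγ : ¬ t ≤ γ := fun h => hsγ ((hst γ (Finset.mem_insert_self _ _)).2 h)
        have h1 : ‖b s - b α‖ < r / 2 := hγ2 ⟨lt_of_not_ge hsγ, hs⟩
        have h2 : ‖b t - b α‖ < r / 2 := hγ2 ⟨lt_of_not_ge htγ, ht⟩
        calc ‖b s - b t‖ = ‖(b s - b α) - (b t - b α)‖ := by congr 1; ring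
          _ ≤ ‖b s - b α‖ + ‖b t - b α‖ := norm_sub_le _ _
          _ < r := by linarith
    · push Not at hα
      refine ⟨∅, fun s t hs ht _ => ?_⟩
      rw [le_antisymm hs (hα s), le_antisymm ht (hα t)]
      simpa using hr

/-- A continuous seminorm on `C(ω₁)` is small on functions which are small on some `[0, α]`. -/
theorem exists_small {p : Seminorm ℂ C(W1, ℂ)} (hp : Continuous p) {η : ℝ} (hη : 0 < η) :
    ∃ α : W1, ∃ r : ℝ, 0 < r ∧ ∀ h : C(W1, ℂ), (∀ s, s ≤ α → ‖h s‖ < r) → p h < η := by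
  obtain ⟨K, hK, r, hr, h⟩ := exists_compact_of_mem_nhds W1 (Seminorm.ball_mem_nhds hp hη)
  obtain ⟨α, hα⟩ := hK.bddAbove
  refine ⟨α, r, hr, fun f hf => ?_⟩
  have := h f fun x hx => hf x (hα hx)
  rwa [Seminorm.mem_ball_zero] at this

/-- A continuous seminorm on `C(ω₁)` is bounded on the functions bounded by `1`. -/
theorem exists_bound {p : Seminorm ℂ C(W1, ℂ)} (hp : Continuous p) :
    ∃ P : ℝ, 0 < P ∧ ∀ h : C(W1, ℂ), (∀ s, ‖h s‖ ≤ 1) → p h ≤ P := by
  obtain ⟨α, r, hr, hα⟩ := exists_small hp one_pos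
  refine ⟨(r / 2)⁻¹, by positivity, fun h hh => ?_⟩
  have h1 := hα (((r / 2 : ℝ) : ℂ) • h) (fun s _ => by
    rw [ContinuousMap.smul_apply, norm_smul, Complex.norm_real, Real.norm_eq_abs,
      abs_of_pos (by positivity)]
    calc r / 2 * ‖h s‖ ≤ r / 2 * 1 := mul_le_mul_of_nonneg_left (hh s) (by positivity)
      _ < r := by linarith)
  rw [map_smul_eq_mul, Complex.norm_real, Real.norm_eq_abs, abs_of_pos (by positivity)] at h1
  rw [← mul_one (r / 2)⁻¹, ← div_eq_inv_mul, le_div_iff₀ (by positivity), mul_comm]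
  exact h1.le

end Pool.Agent.Work.MP_09c931_an
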