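import Mathlib

/-!
# Polynormed algebras, completed projective tensor products, `I^Δ` and amenability

The definitions used in the statement.  Everything is over `ℂ`.  Completed projective tensor
products are characterised by their universal property.
-/

set_option autoImplicit false

open Filter Topology

namespace Pool.Agent.Work.MP_09c931_an

universe u

/-- A complete Hausdorff locally convex space over `ℂ`. -/
structure LCS : Type (u + 1) where
  /-- the underlying set -/
  S : Type u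
  [grp : AddCommGroup S]
  [mod : Module ℂ S]
  [unif : UniformSpace S]
  [unifGrp : IsUniformAddGroup S]
  [locConv : PolynormableSpace ℂ S]
  [complete : CompleteSpace S]
  [hausdorff : T2Space S]

attribute [instance] LCS.grp LCS.mod LCS.unif LCS.unifGrp LCS.locConv LCS.complete LCS.hausdorff

/-- A jointly continuous bilinear map `E × F → G`. -/
structure Bil (E F G : LCS.{u}) where
  /-- the underlying function -/
  f : E.S → F.S → G.S
  add_left : ∀ x x' y, f (x + x') y = f x y + f x' y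
  add_right : ∀ x y y', f x (y + y') = f x y + f x y'
  smul_left : ∀ (c : ℂ) x y, f (c • x) y = c • f x y
  smul_right : ∀ (c : ℂ) x y, f x (c • y) = c • f x y
  cont : Continuous fun z : E.S × F.S => f z.1 z.2

/-- `τ : E × F → T` is a completed projective tensor product of `E` and `F`: every jointly
continuous bilinear map from `E × F` to a complete Hausdorff locally convex space factors
uniquely through a continuous linear map on `T`. -/
def Bil.IsTensor {E F T : LCS.{u}} (τ : Bil E F T) : Prop :=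
  ∀ (G : LCS.{u}) (β : Bil E F G), ∃! φ : T.S →L[ℂ] G.S, ∀ x y, φ (τ.f x y) = β.f x y

/-- A polynormed algebra: a complete Hausdorff locally convex algebra over `ℂ` with jointly
continuous multiplication (associative, not necessarily unital). -/
structure PAlg : Type (u + 1) extends LCS.{u} where
  /-- the multiplication -/
  mul : Bil toLCS toLCS toLCS
  assoc : ∀ a b c, mul.f (mul.f a b) c = mul.f a (mul.f b c)

/-- The space `ℂ × E` with the product topology. -/
noncomputable def LCS.prodC (E : LCS.{u}) : LCS.{u} where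
  S := ℂ × E.S

namespace PAlg

/-- The product `(s, a) (t, b) = (s t, s b + t a + a b)` on `A₊ = ℂ × A`. -/
noncomputable def plusMul (A : PAlg.{u}) (x y : A.toLCS.prodC.S) : A.toLCS.prodC.S :=
  ((x.1 * y.1, x.1 • y.2 + y.1 • x.2 + A.mul.f x.2 y.2) : ℂ × A.S)

theorem plusMul_add_left (A : PAlg.{u}) (x x' y : A.toLCS.prodC.S) :
    A.plusMul (x + x') y = A.plusMul x y + A.plusMul x' y := by
  refine Prod.ext (add_mul _ _ _) ?_
  change (x.1 + x'.1) • y.2 + y.1 • (x.2 + x'.2) + A.mul.f (x.2 + x'.2) y.2 =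
    (x.1 • y.2 + y.1 • x.2 + A.mul.f x.2 y.2) + (x'.1 • y.2 + y.1 • x'.2 + A.mul.f x'.2 y.2)
  rw [A.mul.add_left, add_smul, smul_add]
  abel

theorem plusMul_add_right (A : PAlg.{u}) (x y y' : A.toLCS.prodC.S) :
    A.plusMul x (y + y') = A.plusMul x y + A.plusMul x y' := by
  refine Prod.ext (mul_add _ _ _) ?_
  change x.1 • (y.2 + y'.2) + (y.1 + y'.1) • x.2 + A.mul.f x.2 (y.2 + y'.2) =
    (x.1 • y.2 + y.1 • x.2 + A.mul.f x.2 y.2) + (x.1 • y'.2 + y'.1 • x.2 + A.mul.f x.2 y'.2)
  rw [A.mul.add_right, add_smul, smul_add]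
  abel

theorem plusMul_smul_left (A : PAlg.{u}) (c : ℂ) (x y : A.toLCS.prodC.S) :
    A.plusMul (c • x) y = c • A.plusMul x y := by
  refine Prod.ext (mul_assoc _ _ _) ?_
  change (c * x.1) • y.2 + y.1 • (c • x.2) + A.mul.f (c • x.2) y.2 =
    c • (x.1 • y.2 + y.1 • x.2 + A.mul.f x.2 y.2)
  rw [A.mul.smul_left, smul_add, smul_add, smul_smul, smul_smul, smul_smul, mul_comm y.1 c]

theorem plusMul_smul_right (A : PAlg.{u}) (c : ℂ) (x y : A.toLCS.prodC.S) :
    A.plusMul x (c • y) = c • A.plusMul x y := by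
  refine Prod.ext (mul_left_comm _ _ _) ?_
  change x.1 • (c • y.2) + (c * y.1) • x.2 + A.mul.f x.2 (c • y.2) =
    c • (x.1 • y.2 + y.1 • x.2 + A.mul.f x.2 y.2)
  rw [A.mul.smul_right, smul_add, smul_add, smul_smul, smul_smul, smul_smul, mul_comm x.1 c]

theorem continuous_plusMul (A : PAlg.{u}) :
    Continuous fun z : A.toLCS.prodC.S × A.toLCS.prodC.S => A.plusMul z.1 z.2 := by
  have := (PolynormableSpace.withSeminorms ℂ A.S).continuousSMul
  have h1 : Continuous fun z : (ℂ × A.S) × (ℂ × A.S) => A.mul.f z.1.2 z.2.2 :=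
    A.mul.cont.comp (f := fun z : (ℂ × A.S) × (ℂ × A.S) => (z.1.2, z.2.2)) (by fun_prop)
  have h2 : Continuous fun z : (ℂ × A.S) × (ℂ × A.S) => z.1.1 • z.2.2 :=
    (continuous_fst.comp continuous_fst).smul (continuous_snd.comp continuous_snd)
  have h3 : Continuous fun z : (ℂ × A.S) × (ℂ × A.S) => z.2.1 • z.1.2 :=
    (continuous_fst.comp continuous_snd).smul (continuous_snd.comp continuous_fst)
  have h4 : Continuous fun z : (ℂ × A.S) × (ℂ × A.S) => z.1.1 * z.2.1 :=
    (continuous_fst.comp continuous_fst).mul (continuous_fst.comp continuous_snd)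
  exact h4.prodMk ((h2.add h3).add h1)

theorem plusMul_assoc (A : PAlg.{u}) (x y z : A.toLCS.prodC.S) :
    A.plusMul (A.plusMul x y) z = A.plusMul x (A.plusMul y z) := by
  refine Prod.ext (mul_assoc _ _ _) ?_
  change (x.1 * y.1) • z.2 + z.1 • (x.1 • y.2 + y.1 • x.2 + A.mul.f x.2 y.2) +
      A.mul.f (x.1 • y.2 + y.1 • x.2 + A.mul.f x.2 y.2) z.2 =
    x.1 • (y.1 • z.2 + z.1 • y.2 + A.mul.f y.2 z.2) + (y.1 * z.1) • x.2 +
      A.mul.f x.2 (y.1 • z.2 + z.1 • y.2 + A.mul.f y.2 z.2)
  simp only [A.mul.add_left, A.mul.add_right, A.mul.smul_left, A.mul.smul_right, smul_add,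
    smul_smul, A.assoc, mul_comm]
  abel

/-- The unitization `A₊ = ℂ × A`, with the product topology and
`(s, a) (t, b) = (s t, s b + t a + a b)`. -/
noncomputable def plus (A : PAlg.{u}) : PAlg.{u} where
  toLCS := A.toLCS.prodC
  mul := ⟨A.plusMul, A.plusMul_add_left, A.plusMul_add_right, A.plusMul_smul_left,
    A.plusMul_smul_right, A.continuous_plusMul⟩
  assoc := A.plusMul_assoc

/-- `A` is an Arens-Michael algebra: its topology is defined by a family of submultiplicative
seminorms. -/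
def IsArensMichael (A : PAlg.{u}) : Prop :=
  ∃ (ι : Type u) (_ : Nonempty ι) (p : ι → Seminorm ℂ A.S), WithSeminorms p ∧
    ∀ i a b, p i (A.mul.f a b) ≤ p i a * p i b

/-- `I^Δ` has a bounded right approximate identity.  Here `T = A^env` is the completed projective
tensor product of `A₊` and `A₊` (with `τ a b = a ⊗ b`), `m` is its multiplication
`(a ⊗ b) (c ⊗ d) = a c ⊗ d b`, `π` is the continuous linear map with `π (a ⊗ b) = a b`, `I^Δ` is
the kernel of `π`, and `(e ν)` is a net in `I^Δ` with `{e ν}` bounded in `T` and `x e ν → x` for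
every `x` in `I^Δ`. -/
def HasBRAI (A : PAlg.{u}) : Prop :=
  ∃ (T : LCS.{u}) (τ : Bil A.plus.toLCS A.plus.toLCS T) (m : Bil T T T)
    (π : T.S →L[ℂ] A.plus.S),
    τ.IsTensor ∧
    (∀ a b c d, m.f (τ.f a b) (τ.f c d) = τ.f (A.plus.mul.f a c) (A.plus.mul.f d b)) ∧
    (∀ a b, π (τ.f a b) = A.plus.mul.f a b) ∧
    ∃ (N : Type u) (_ : Preorder N) (_ : IsDirectedOrder N) (_ : Nonempty N) (e : N → T.S),
      (∀ ν, π (e ν) = 0) ∧ Bornology.IsVonNBounded ℂ (Set.range e) ∧
      ∀ x, π x = 0 → Tendsto (fun ν => m.f x (e ν)) atTop (𝓝 x)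

/-- An `A`-bimodule structure with jointly continuous actions on the complete Hausdorff locally
convex space `X`: `l a x = a · x` and `r x a = x · a`. -/
structure Bimodule (A : PAlg.{u}) (X : LCS.{u}) where
  /-- the left action -/
  l : Bil A.toLCS X X
  /-- the right action -/
  r : Bil X A.toLCS X
  l_mul : ∀ a b x, l.f (A.mul.f a b) x = l.f a (l.f b x)
  r_mul : ∀ x a b, r.f x (A.mul.f a b) = r.f (r.f x a) b
  l_r : ∀ a x b, r.f (l.f a x) b = l.f a (r.f x b)

/-- `A` is amenable: for every complete Hausdorff locally convex `A`-bimodule `X`, with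
`d₀ : X ⊗̂ A → X`, `d₀ (x ⊗ a) = x · a - a · x`, and `d₁ : X ⊗̂ A ⊗̂ A → X ⊗̂ A`,
`d₁ (x ⊗ a ⊗ b) = x · a ⊗ b - x ⊗ a b + b · x ⊗ a`, one has `ker d₀ = im d₁` (that is,
`H₁(A, X) = 0`) and the image of `d₀` is closed (that is, `H₀(A, X)` is Hausdorff). -/
def Amenable (A : PAlg.{u}) : Prop :=
  ∀ (X : LCS.{u}) (M : A.Bimodule X)
    (T₁ : LCS.{u}) (τ₁ : Bil X A.toLCS T₁) (T₂ : LCS.{u}) (τ₂ : Bil T₁ A.toLCS T₂)
    (d₀ : T₁.S →L[ℂ] X.S) (d₁ : T₂.S →L[ℂ] T₁.S),
    τ₁.IsTensor → τ₂.IsTensor →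
    (∀ x a, d₀ (τ₁.f x a) = M.r.f x a - M.l.f a x) →
    (∀ x a b, d₁ (τ₂.f (τ₁.f x a) b) =
      τ₁.f (M.r.f x a) b - τ₁.f x (A.mul.f a b) + τ₁.f (M.l.f b x) a) →
    (∀ z, d₀ z = 0 ↔ ∃ w, d₁ w = z) ∧ IsClosed (Set.range d₀)

end PAlg

end Pool.Agent.Work.MP_09c931_an
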