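import Pool.Agent.Work.MP_09c931_an.ProjTensor

/-!
# Unitization, enveloping algebra, the ideal `I^Δ` and bounded right approximate identities
-/

set_option autoImplicit false

open scoped TensorProduct Topology
open UniformSpace

namespace Pool.Agent.Work.MP_09c931_an

universe u

/-! ### The unitization `A₊` -/

/-- The unitization `A₊ = ℂ ⊕ A` of `A`, to be equipped with the product topology. -/
def Plus (A : Type u) : Type u := Unitization ℂ A

section Plus

variable (A : Type u) [NonUnitalRing A] [Module ℂ A] [IsScalarTower ℂ A A] [SMulCommClass ℂ A A]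

noncomputable instance : Ring (Plus A) := inferInstanceAs (Ring (Unitization ℂ A))

noncomputable instance : Algebra ℂ (Plus A) := inferInstanceAs (Algebra ℂ (Unitization ℂ A))

/-- The linear isomorphism `A₊ ≃ ℂ × A`. -/
noncomputable def Plus.toProd : Plus A ≃ₗ[ℂ] ℂ × A where
  toFun x := Unitization.toProd x
  invFun z := (⟨z⟩ : Unitization ℂ A)
  left_inv _ := rfl
  right_inv _ := rfl
  map_add' _ _ := rfl
  map_smul' _ _ := rfl

variable [UniformSpace A]

/-- `A₊` carries the product uniform structure of `ℂ × A`. -/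
noncomputable instance : UniformSpace (Plus A) :=
  UniformSpace.comap (Plus.toProd A) inferInstance

theorem Plus.isUniformInducing : IsUniformInducing (Plus.toProd A) := ⟨rfl⟩

theorem Plus.isInducing : Topology.IsInducing (Plus.toProd A) :=
  (Plus.isUniformInducing A).isInducing

theorem Plus.isUniformEmbedding : IsUniformEmbedding (Plus.toProd A) :=
  ⟨Plus.isUniformInducing A, (Plus.toProd A).injective⟩

instance [IsUniformAddGroup A] : IsUniformAddGroup (Plus A) :=
  (Plus.isUniformInducing A).isUniformAddGroup (Plus.toProd A)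

instance [PolynormableSpace ℂ A] : PolynormableSpace ℂ (Plus A) :=
  (Plus.isInducing A).polynormableSpace (f := (Plus.toProd A : Plus A →ₗ[ℂ] ℂ × A))

instance [CompleteSpace A] : CompleteSpace (Plus A) :=
  ((Plus.isUniformInducing A).completeSpace_congr (Plus.toProd A).surjective).2 inferInstance

instance [T2Space A] : T2Space (Plus A) :=
  (Plus.isUniformEmbedding A).isEmbedding.t2Space

instance [PolynormableSpace ℂ A] : ContinuousSMul ℂ (Plus A) :=
  (PolynormableSpace.withSeminorms ℂ (Plus A)).continuousSMul

instance [IsUniformAddGroup A] [PolynormableSpace ℂ A] :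
    UniformContinuousConstSMul ℂ (Plus A) :=
  uniformContinuousConstSMul_of_continuousConstSMul ℂ (Plus A)

omit [UniformSpace A] in
theorem Plus.toProd_mul (x y : Plus A) : Plus.toProd A (x * y) =
    ((Plus.toProd A x).1 * (Plus.toProd A y).1,
      (Plus.toProd A x).1 • (Plus.toProd A y).2 + (Plus.toProd A y).1 • (Plus.toProd A x).2
        + (Plus.toProd A x).2 * (Plus.toProd A y).2) := rfl

instance [IsUniformAddGroup A] [ContinuousSMul ℂ A] [ContinuousMul A] :
    ContinuousMul (Plus A) where
  continuous_mul := by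
    rw [(Plus.isInducing A).continuous_iff]
    have h : Continuous (Plus.toProd A) := (Plus.isInducing A).continuous
    have h1 : Continuous fun z : Plus A × Plus A => Plus.toProd A z.1 := h.comp continuous_fst
    have h2 : Continuous fun z : Plus A × Plus A => Plus.toProd A z.2 := h.comp continuous_snd
    have h3 : (Plus.toProd A ∘ fun z : Plus A × Plus A => z.1 * z.2) = fun z =>
      ((Plus.toProd A z.1).1 * (Plus.toProd A z.2).1,
      (Plus.toProd A z.1).1 • (Plus.toProd A z.2).2 + (Plus.toProd A z.2).1 • (Plus.toProd A z.1).2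
        + (Plus.toProd A z.1).2 * (Plus.toProd A z.2).2) := by
      funext z
      exact Plus.toProd_mul A z.1 z.2
    rw [h3]
    have h11 := continuous_fst.comp h1
    have h12 := continuous_snd.comp h1
    have h21 := continuous_fst.comp h2
    have h22 := continuous_snd.comp h2
    exact (h11.mul h21).prodMk (((h11.smul h22).add (h21.smul h12)).add (h12.mul h22))

end Plus

/-! ### The opposite algebra `A₊ᵒᵖ` -/

/-- The opposite algebra of `A₊`, with the topology of `A₊`. -/
def PlusOp (A : Type u) : Type u := (Plus A)ᵐᵒᵖ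

section Op

variable (A : Type u) [NonUnitalRing A] [Module ℂ A] [IsScalarTower ℂ A A] [SMulCommClass ℂ A A]

noncomputable instance : Ring (PlusOp A) := inferInstanceAs (Ring (Plus A)ᵐᵒᵖ)

noncomputable instance : Algebra ℂ (PlusOp A) := inferInstanceAs (Algebra ℂ (Plus A)ᵐᵒᵖ)

/-- The identity map `A₊ → A₊ᵒᵖ`, as a linear isomorphism. -/
noncomputable def opP : Plus A ≃ₗ[ℂ] PlusOp A where
  toFun x := MulOpposite.op x
  invFun x := MulOpposite.unop x
  left_inv _ := rfl
  right_inv _ := rfl
  map_add' _ _ := rfl
  map_smul' _ _ := rfl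

/-- Multiplication in `A₊ᵒᵖ` is the reversed multiplication of `A₊`. -/
theorem opP_mul (x y : Plus A) : opP A x * opP A y = opP A (y * x) := rfl

theorem opP_one : opP A 1 = 1 := rfl

variable [UniformSpace A]

noncomputable instance : TopologicalSpace (PlusOp A) :=
  TopologicalSpace.induced (opP A).symm inferInstance

theorem isInducing_unop : Topology.IsInducing (opP A).symm := ⟨rfl⟩

theorem continuous_opP_symm : Continuous (opP A).symm := (isInducing_unop A).continuous

theorem continuous_opP : Continuous (opP A) := by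
  rw [(isInducing_unop A).continuous_iff]
  exact continuous_id

instance [PolynormableSpace ℂ A] : PolynormableSpace ℂ (PlusOp A) :=
  (isInducing_unop A).polynormableSpace (f := ((opP A).symm : PlusOp A →ₗ[ℂ] Plus A))

instance [PolynormableSpace ℂ A] : IsTopologicalAddGroup (PlusOp A) :=
  (PolynormableSpace.withSeminorms ℂ (PlusOp A)).topologicalAddGroup

instance [IsUniformAddGroup A] [ContinuousSMul ℂ A] [ContinuousMul A] :
    ContinuousMul (PlusOp A) where
  continuous_mul := by
    rw [(isInducing_unop A).continuous_iff]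
    have h1 : Continuous fun z : PlusOp A × PlusOp A => (opP A).symm z.1 :=
      (continuous_opP_symm A).comp continuous_fst
    have h2 : Continuous fun z : PlusOp A × PlusOp A => (opP A).symm z.2 :=
      (continuous_opP_symm A).comp continuous_snd
    exact h2.mul h1

end Op

/-! ### The enveloping algebra, `π₊` and `I^Δ` -/

section Env

variable (A : Type u) [NonUnitalRing A] [Module ℂ A] [IsScalarTower ℂ A A] [SMulCommClass ℂ A A]
  [UniformSpace A] [IsUniformAddGroup A] [ContinuousSMul ℂ A] [PolynormableSpace ℂ A]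
  [ContinuousMul A]

/-- The algebra `A₊ ⊗ A₊ᵒᵖ` with the projective topology.  Its product is
`(a ⊗ b) (c ⊗ d) = a c ⊗ d b`. -/
abbrev PreEnv := PTensor (Plus A) (PlusOp A)

/-- The enveloping algebra `A^env = A₊ ⊗̂ A₊ᵒᵖ`, the completion of `PreEnv A`. -/
abbrev Env := Completion (PreEnv A)

/-- The bilinear map `(a, b) ↦ a b` on `A₊ × A₊ᵒᵖ`. -/
noncomputable def mulBilin : Plus A →ₗ[ℂ] PlusOp A →ₗ[ℂ] Plus A :=
  (LinearMap.mul ℂ (Plus A)).compl₂ ((opP A).symm : PlusOp A →ₗ[ℂ] Plus A)

omit [UniformSpace A] [IsUniformAddGroup A] [ContinuousSMul ℂ A] [PolynormableSpace ℂ A]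
  [ContinuousMul A] in
theorem mulBilin_apply (a b : Plus A) : mulBilin A a (opP A b) = a * b := rfl

theorem mulBilin_BB : BB (mulBilin A) := by
  apply BB.of_continuous
  have : Continuous fun z : Plus A × PlusOp A => z.1 * (opP A).symm z.2 :=
    continuous_fst.mul ((continuous_opP_symm A).comp continuous_snd)
  exact this

/-- The map `a ⊗ b ↦ a b` on the algebraic tensor product. -/
noncomputable def piPre : PreEnv A →L[ℂ] Plus A := PTensor.lift (mulBilin A) (mulBilin_BB A)

/-- The formula `(a ⊗ b) (c ⊗ d) = a c ⊗ d b` in `A^env`. -/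
theorem env_mul (a b c d : Plus A) :
    ((tm a (opP A b) : PreEnv A) : Env A) * ((tm c (opP A d) : PreEnv A) : Env A) =
      ((tm (a * c) (opP A (d * b)) : PreEnv A) : Env A) := by
  rw [← Completion.coe_mul, tm_mul_tm, opP_mul]

theorem piPre_tm (a b : Plus A) : piPre A (tm a (opP A b)) = a * b :=
  PTensor.lift_tm _ _ _ _

variable [CompleteSpace A] [T2Space A]

/-- The continuous linear map `π₊ : A^env → A₊` with `π₊ (a ⊗ b) = a b`. -/
noncomputable def piPlus : Env A →L[ℂ] Plus A := (piPre A).fromCompletion

theorem piPlus_coe (u : PreEnv A) : piPlus A (u : Env A) = piPre A u :=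
  ContinuousLinearMap.fromCompletion_apply_coe _ _

/-- The defining formula of `π₊`. -/
theorem piPlus_tm (a b : Plus A) : piPlus A ((tm a (opP A b) : PreEnv A) : Env A) = a * b := by
  rw [piPlus_coe, piPre_tm]

/-- The closed left ideal `I^Δ = ker π₊` of `A^env`. -/
noncomputable def IDelta : Submodule ℂ (Env A) := LinearMap.ker (piPlus A : Env A →ₗ[ℂ] Plus A)

/-- `I^Δ` has a bounded right approximate identity: there is a net `(e ν)` in `I^Δ` such that
`{e ν}` is a bounded subset of `A^env` and `x * e ν → x` for every `x ∈ I^Δ`. -/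
def HasBRAI : Prop :=
  ∃ (N : Type u) (_ : Preorder N) (_ : IsDirectedOrder N) (_ : Nonempty N) (e : N → Env A),
    (∀ ν, e ν ∈ IDelta A) ∧ Bornology.IsVonNBounded ℂ (Set.range e) ∧
    ∀ x ∈ IDelta A, Filter.Tendsto (fun ν => x * e ν) Filter.atTop (𝓝 x)

end Env

end Pool.Agent.Work.MP_09c931_an
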