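import Pool.Agent.Work.MP_09c931_an.Cuts

/-!
# `C(ω₁)` is not metrizable
-/

set_option autoImplicit false

open scoped Topology
open Set

namespace Pool.Agent.Work.MP_09c931_an

theorem not_firstCountable : ¬ FirstCountableTopology C(W1, ℂ) := by
  intro h
  obtain ⟨V, hV⟩ := (𝓝 (0 : C(W1, ℂ))).exists_antitone_basis
  have h1 : ∀ n, ∃ α : W1, ∀ f : C(W1, ℂ), (∀ s, s ≤ α → f s = 0) → f ∈ V n := by
    intro n
    obtain ⟨K, hK, r, hr, h⟩ := exists_compact_of_mem_nhds W1 (hV.1.mem_of_mem (i := n) trivial)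
    obtain ⟨α, hα⟩ := hK.bddAbove
    exact ⟨α, fun f hf => h f fun x hx => by rw [hf x (hα hx), norm_zero]; exact hr⟩
  choose α hα using h1
  obtain ⟨b, hb⟩ := W1.bddAbove_of_countable (countable_range α)
  have hU : {f : C(W1, ℂ) | ‖f b‖ < 1} ∈ 𝓝 (0 : C(W1, ℂ)) := by
    have hc : Continuous fun f : C(W1, ℂ) => ‖f b‖ := (continuous_eval_const b).norm
    have h2 : Iio (1 : ℝ) ∈ 𝓝 ‖(0 : C(W1, ℂ)) b‖ := Iio_mem_nhds (by simp)
    exact hc.continuousAt.preimage_mem_nhds h2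
  obtain ⟨n, -, hn⟩ := hV.1.mem_iff.1 hU
  have h3 : ind (Ioi (α n)) (W1.isClopen_Ioi (α n)) ∈ V n := by
    apply hα
    intro s hs
    exact ind_of_notMem _ (not_lt.2 hs)
  have h4 := hn h3
  have h5 : ind (Ioi (α n)) (W1.isClopen_Ioi (α n)) b = 1 :=
    ind_of_mem _ (hb _ (mem_range_self n))
  have h6 : ‖ind (Ioi (α n)) (W1.isClopen_Ioi (α n)) b‖ < 1 := h4
  rw [h5, norm_one] at h6
  exact lt_irrefl _ h6

end Pool.Agent.Work.MP_09c931_an
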