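import Pool.Agent.Work.MP_09c931_an.Bundle
import Pool.Agent.Work.MP_09c931_an.Conv
import Pool.Agent.Work.MP_09c931_an.NonMetrizable

/-!
# The polynormed algebra `C(ω₁)`
-/

set_option autoImplicit false

open scoped TensorProduct Topology
open UniformSpace

namespace Pool.Agent.Work.MP_09c931_an

/-- The algebra `C(ω₁)` of continuous functions on the space of countable ordinals, with the
topology of uniform convergence on compact sets. -/
noncomputable def COmega : PAlg.{0} where
  S := C(W1, ℂ)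
  mul := ⟨fun a b => a * b, add_mul, mul_add, smul_mul_assoc, fun c a b => mul_smul_comm c a b,
    continuous_mul⟩
  assoc := mul_assoc

theorem COmega_isArensMichael : COmega.IsArensMichael := isArensMichael_contMap W1

/-- The space `C({(s, t) : s < t})`. -/
noncomputable def CPairs : LCS.{0} where
  S := C(WT, ℂ)

/-- The bimodule `C({(s, t) : s < t})`. -/
noncomputable def XBim : COmega.Bimodule CPairs where
  l := ⟨fun a x => XBimod.l a x, LinearMap.map_add₂ XBimod.l,
    fun a x y => map_add (XBimod.l a) x y, LinearMap.map_smul₂ XBimod.l,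
    fun c a x => map_smul (XBimod.l a) c x, XBimod.continuous_l⟩
  r := ⟨fun x a => XBimod.r a x, fun x y a => map_add (XBimod.r a) x y,
    fun x a b => LinearMap.map_add₂ XBimod.r a b x, fun c x a => map_smul (XBimod.r a) c x,
    fun c x a => LinearMap.map_smul₂ XBimod.r c a x,
    XBimod.continuous_r.comp (continuous_snd.prodMk continuous_fst)⟩
  l_mul a b x := XBimod.l_mul a b x
  r_mul x a b := XBimod.r_mul a b x
  l_r a x b := (XBimod.l_r a b x).symm

theorem coe_d1Bilin (x : C(WT, ℂ)) (a b : C(W1, ℂ)) :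
    ((d1Bilin XBimod (tm x a) b : PTensor C(WT, ℂ) C(W1, ℂ)) : CTensor C(WT, ℂ) C(W1, ℂ)) =
      (tm (XBimod.r a x) b : CTensor C(WT, ℂ) C(W1, ℂ)) - (tm x (a * b)) + tm (XBimod.l b x) a := by
  rw [← Completion.coe_sub, ← Completion.coe_add]
  rfl

theorem COmega_not_amenable : ¬ COmega.Amenable := by
  intro h
  -- the completed tensor product `X ⊗̂ A`
  let T₁ : LCS.{0} := complLCS (PTensor C(WT, ℂ) C(W1, ℂ))
  let τ₁ : Bil CPairs COmega.toLCS T₁ :=
    ctm (E := CPairs) (F := COmega.toLCS) (ContinuousLinearEquiv.refl ℂ C(WT, ℂ))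
      (ContinuousLinearEquiv.refl ℂ C(W1, ℂ))
  have hτ₁ : τ₁.IsTensor := isTensor_ctm _ _
  -- the extension of the bilinear map defining `d₁`
  obtain ⟨β, hβ⟩ : ∃ β : Bil T₁ COmega.toLCS T₁, ∀ (u : PTensor C(WT, ℂ) C(W1, ℂ)) (b : C(W1, ℂ)),
      β.f (u : CTensor C(WT, ℂ) C(W1, ℂ)) b =
        ((d1Bilin XBimod u b : PTensor C(WT, ℂ) C(W1, ℂ)) : CTensor C(WT, ℂ) C(W1, ℂ)) := by
    have h1 : BB (LinearMap.mk₂ ℂ (fun (u : PTensor C(WT, ℂ) C(W1, ℂ)) (b : C(W1, ℂ)) =>
        ((d1Bilin XBimod u b : PTensor C(WT, ℂ) C(W1, ℂ)) : CTensor C(WT, ℂ) C(W1, ℂ)))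
        (fun u v b => by rw [map_add, LinearMap.add_apply, Completion.coe_add])
        (fun c u b => by rw [map_smul, LinearMap.smul_apply, Completion.coe_smul])
        (fun u a b => by rw [map_add, Completion.coe_add])
        (fun c u a => by rw [map_smul, Completion.coe_smul])) := by
      apply BB.of_continuous
      exact (Completion.continuous_coe _).comp (d1Bilin_BB XBimod).continuous
    exact exists_extend (F := COmega.toLCS) (G := T₁) _ h1
  obtain ⟨T₂, τ₂, hτ₂⟩ := exists_isTensor T₁ COmega.toLCS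
  obtain ⟨d₁, hd₁, -⟩ := hτ₂ T₁ β
  have h2 := h CPairs XBim T₁ τ₁ T₂ τ₂ (d0 XBimod) d₁ hτ₁ hτ₂ (fun x a => d0_tm XBimod x a) (by
    intro x a b
    rw [hd₁]
    exact (hβ (tm (x : C(WT, ℂ)) (a : C(W1, ℂ))) b).trans (coe_d1Bilin x a b))
  exact not_isClosed_range h2.2

/-- The isomorphism of `ℂ × C(ω₁)` and the unitization of `C(ω₁)`. -/
noncomputable def eP : (ℂ × C(W1, ℂ)) ≃L[ℂ] Plus C(W1, ℂ) where
  toLinearEquiv := (Plus.toProd C(W1, ℂ)).symm
  continuous_toFun := by
    rw [(Plus.isInducing C(W1, ℂ)).continuous_iff]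
    exact continuous_id
  continuous_invFun := (Plus.isInducing C(W1, ℂ)).continuous

/-- The isomorphism of `ℂ × C(ω₁)` and the opposite of the unitization of `C(ω₁)`. -/
noncomputable def eQ : (ℂ × C(W1, ℂ)) ≃L[ℂ] PlusOp C(W1, ℂ) where
  toLinearEquiv := (Plus.toProd C(W1, ℂ)).symm.trans (opP C(W1, ℂ))
  continuous_toFun := (continuous_opP C(W1, ℂ)).comp eP.continuous
  continuous_invFun := (Plus.isInducing C(W1, ℂ)).continuous.comp
    (continuous_opP_symm C(W1, ℂ))

theorem eQ_apply (a : ℂ × C(W1, ℂ)) : eQ a = opP C(W1, ℂ) (eP a) := rfl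

theorem eP_mul (a b : ℂ × C(W1, ℂ)) :
    eP a * eP b = eP (COmega.plus.mul.f a b) := rfl

/-- The enveloping algebra. -/
noncomputable def TEnv : LCS.{0} := complLCS (PreEnv C(W1, ℂ))

/-- The multiplication of the enveloping algebra. -/
noncomputable def envMul (x y : Env C(W1, ℂ)) : Env C(W1, ℂ) := x * y

theorem env_smul_mul (c : ℂ) (x y : Env C(W1, ℂ)) : (c • x) * y = c • (x * y) := by
  induction x, y using Completion.induction_on₂ with
  | hp =>
    exact isClosed_eq ((continuous_fst.const_smul c).mul continuous_snd)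
      (continuous_mul.const_smul c)
  | ih x y =>
    rw [← Completion.coe_smul, ← Completion.coe_mul, ← Completion.coe_mul, ← Completion.coe_smul,
      smul_mul_assoc]

theorem env_mul_smul (c : ℂ) (x y : Env C(W1, ℂ)) : x * (c • y) = c • (x * y) := by
  induction x, y using Completion.induction_on₂ with
  | hp =>
    exact isClosed_eq (continuous_fst.mul (continuous_snd.const_smul c))
      (continuous_mul.const_smul c)
  | ih x y =>
    rw [← Completion.coe_smul, ← Completion.coe_mul, ← Completion.coe_mul, ← Completion.coe_smul,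
      mul_smul_comm]

/-- The multiplication of the enveloping algebra, bundled. -/
noncomputable def mEnv : Bil TEnv TEnv TEnv where
  f := envMul
  add_left := @add_mul (Env C(W1, ℂ)) _ _ _
  add_right := @mul_add (Env C(W1, ℂ)) _ _ _
  smul_left := env_smul_mul
  smul_right := env_mul_smul
  cont := (continuous_mul : Continuous fun z : Env C(W1, ℂ) × Env C(W1, ℂ) => z.1 * z.2)

theorem COmega_hasBRAI : COmega.HasBRAI := by
  let τ : Bil COmega.plus.toLCS COmega.plus.toLCS TEnv :=
    ctm (E := COmega.plus.toLCS) (F := COmega.plus.toLCS) eP eQ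
  let π : Env C(W1, ℂ) →L[ℂ] ℂ × C(W1, ℂ) :=
    (eP.symm : Plus C(W1, ℂ) →L[ℂ] ℂ × C(W1, ℂ)).comp (piPlus C(W1, ℂ))
  obtain ⟨N, hN1, hN2, hN3, e, he1, he2, he3⟩ := hasBRAI
  have hπ : ∀ x : Env C(W1, ℂ), π x = 0 ↔ x ∈ IDelta C(W1, ℂ) := by
    intro x
    change eP.symm (piPlus C(W1, ℂ) x) = 0 ↔ piPlus C(W1, ℂ) x = 0
    rw [EmbeddingLike.map_eq_zero_iff]
  refine ⟨TEnv, τ, mEnv, π, isTensor_ctm _ _, ?_, ?_, N, hN1, hN2, hN3, e, ?_, he2, ?_⟩
  · intro a b c d
    exact env_mul C(W1, ℂ) (eP a) (eP b) (eP c) (eP d)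
  · intro a b
    exact (congrArg eP.symm ((piPlus_tm C(W1, ℂ) (eP a) (eP b)).trans (eP_mul a b))).trans
      (ContinuousLinearEquiv.symm_apply_apply eP _)
  · intro ν
    exact (hπ (e ν)).2 (he1 ν)
  · intro x hx
    exact he3 x ((hπ x).1 hx)

theorem COmega_not_firstCountable : ¬ FirstCountableTopology COmega.S := not_firstCountable

end Pool.Agent.Work.MP_09c931_an
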