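import Pool.Agent.Work.MP_09c931_an.Env

/-!
# Bimodules, the standard complex in degrees `≤ 2`, amenability, Arens-Michael algebras
-/

set_option autoImplicit false

open scoped TensorProduct Topology
open UniformSpace

namespace Pool.Agent.Work.MP_09c931_an

universe u

section Bimodule

variable (A : Type u) [NonUnitalRing A] [Module ℂ A] [TopologicalSpace A]
  (X : Type u) [AddCommGroup X] [Module ℂ X] [TopologicalSpace X]

/-- The structure of an `A`-bimodule with jointly continuous actions on the topological vector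
space `X`; `l a x` is `a · x` and `r a x` is `x · a`. -/
structure Bimodule where
  /-- the left action, `l a x = a · x` -/
  l : A →ₗ[ℂ] X →ₗ[ℂ] X
  /-- the right action, `r a x = x · a` -/
  r : A →ₗ[ℂ] X →ₗ[ℂ] X
  l_mul : ∀ a b x, l (a * b) x = l a (l b x)
  r_mul : ∀ a b x, r (a * b) x = r b (r a x)
  l_r : ∀ a b x, l a (r b x) = r b (l a x)
  continuous_l : Continuous fun z : A × X => l z.1 z.2
  continuous_r : Continuous fun z : A × X => r z.1 z.2

end Bimodule

section Complex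

variable {A : Type u} [NonUnitalRing A] [Module ℂ A] [IsScalarTower ℂ A A] [SMulCommClass ℂ A A]
  [TopologicalSpace A] [IsTopologicalAddGroup A] [PolynormableSpace ℂ A] [ContinuousMul A]
  {X : Type u} [AddCommGroup X] [Module ℂ X]

section Top

variable [TopologicalSpace X] [IsTopologicalAddGroup X] [PolynormableSpace ℂ X]

/-- The bilinear map `(x, a) ↦ x · a - a · x`. -/
noncomputable def d0Bilin (M : Bimodule A X) : X →ₗ[ℂ] A →ₗ[ℂ] X := M.r.flip - M.l.flip

theorem d0Bilin_apply (M : Bimodule A X) (x : X) (a : A) : d0Bilin M x a = M.r a x - M.l a x := rfl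

theorem d0Bilin_BB (M : Bimodule A X) : BB (d0Bilin M) := by
  apply BB.of_continuous
  have h1 : Continuous fun z : X × A => M.r z.2 z.1 :=
    M.continuous_r.comp (continuous_snd.prodMk continuous_fst)
  have h2 : Continuous fun z : X × A => M.l z.2 z.1 :=
    M.continuous_l.comp (continuous_snd.prodMk continuous_fst)
  exact h1.sub h2

/-- The map `x ⊗ a ↦ x · a - a · x` on the algebraic tensor product. -/
noncomputable def d0Pre (M : Bimodule A X) : PTensor X A →L[ℂ] X :=
  PTensor.lift (d0Bilin M) (d0Bilin_BB M)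

/-- The bilinear map `(u, b) ↦ u · b` on `(X ⊗ A) × A` given by `(x ⊗ a, b) ↦ (x · a) ⊗ b`. -/
noncomputable def d1Bilin1 (M : Bimodule A X) : PTensor X A →ₗ[ℂ] A →ₗ[ℂ] PTensor X A :=
  ((TensorProduct.mk ℂ X A).comp (TensorProduct.lift M.r.flip) :
    X ⊗[ℂ] A →ₗ[ℂ] A →ₗ[ℂ] X ⊗[ℂ] A)

/-- The bilinear map on `(X ⊗ A) × A` given by `(x ⊗ a, b) ↦ x ⊗ (a b)`. -/
noncomputable def d1Bilin2 (A X : Type u) [NonUnitalRing A] [Module ℂ A] [IsScalarTower ℂ A A]
    [SMulCommClass ℂ A A] [AddCommGroup X] [Module ℂ X] :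
    PTensor X A →ₗ[ℂ] A →ₗ[ℂ] PTensor X A :=
  (((LinearMap.lTensorHom X).comp (LinearMap.mul ℂ A).flip).flip :
    X ⊗[ℂ] A →ₗ[ℂ] A →ₗ[ℂ] X ⊗[ℂ] A)

/-- The bilinear map on `(X ⊗ A) × A` given by `(x ⊗ a, b) ↦ (b · x) ⊗ a`. -/
noncomputable def d1Bilin3 (M : Bimodule A X) : PTensor X A →ₗ[ℂ] A →ₗ[ℂ] PTensor X A :=
  (((LinearMap.rTensorHom A).comp M.l).flip : X ⊗[ℂ] A →ₗ[ℂ] A →ₗ[ℂ] X ⊗[ℂ] A)

/-- The bilinear map `(x ⊗ a, b) ↦ (x · a) ⊗ b - x ⊗ (a b) + (b · x) ⊗ a`. -/
noncomputable def d1Bilin (M : Bimodule A X) :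
    PTensor X A →ₗ[ℂ] A →ₗ[ℂ] PTensor X A :=
  d1Bilin1 M - d1Bilin2 A X + d1Bilin3 M

theorem d1Bilin_tmul (M : Bimodule A X) (x : X) (a b : A) :
    d1Bilin M (x ⊗ₜ[ℂ] a : X ⊗[ℂ] A) b =
      ((M.r a x) ⊗ₜ[ℂ] b - x ⊗ₜ[ℂ] (a * b) + (M.l b x) ⊗ₜ[ℂ] a : X ⊗[ℂ] A) := rfl

theorem d1Bilin1_BB (M : Bimodule A X) :
    BB (d1Bilin1 M) := by
  apply BB.of_withSeminorms (withSeminorms_proj X A)
  rintro ⟨⟨p, hp⟩, ⟨q, hq⟩⟩
  have hr : BB M.r.flip := by
    apply BB.of_continuous
    exact M.continuous_r.comp (continuous_snd.prodMk continuous_fst)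
  have hρ : Continuous (p.comp (PTensor.lift M.r.flip hr : PTensor X A →ₗ[ℂ] X)) :=
    hp.comp (PTensor.lift M.r.flip hr).continuous
  refine ⟨_, hρ, q, hq, fun u b => ?_⟩
  exact projSeminorm_tmul_le p q _ b

theorem d1Bilin2_BB :
    BB (d1Bilin2 A X) := by
  apply BB.of_withSeminorms (withSeminorms_proj X A)
  rintro ⟨⟨p, hp⟩, ⟨q, hq⟩⟩
  have hA : BB (LinearMap.mul ℂ A) := BB.of_continuous (by simpa using continuous_mul)
  obtain ⟨q1, hq1, q2, hq2, h⟩ := hA q hq
  refine ⟨projFamily X A ⟨⟨p, hp⟩, ⟨q1, hq1⟩⟩,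
    (withSeminorms_proj X A).continuous_seminorm _, q2, hq2, fun u b => ?_⟩
  have h1 := le_mul_projSeminorm (p := p) (q := q1) (c := q2 b)
    (r := (projSeminorm p q).comp ((d1Bilin2 A X).flip b)) (apply_nonneg _ _)
    (fun x a => by
      change projSeminorm p q (x ⊗ₜ[ℂ] (a * b)) ≤ _
      refine (projSeminorm_tmul_le _ _ _ _).trans ?_
      have h3 : q (a * b) ≤ q1 a * q2 b := h a b
      calc p x * q (a * b) ≤ p x * (q1 a * q2 b) :=
            mul_le_mul_of_nonneg_left h3 (apply_nonneg _ _)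
        _ = q2 b * (p x * q1 a) := by ring) u
  rw [mul_comm] at h1
  exact h1

theorem d1Bilin3_BB (M : Bimodule A X) :
    BB (d1Bilin3 M) := by
  apply BB.of_withSeminorms (withSeminorms_proj X A)
  rintro ⟨⟨p, hp⟩, ⟨q, hq⟩⟩
  have hl : BB M.l := BB.of_continuous M.continuous_l
  obtain ⟨q1, hq1, p1, hp1, h⟩ := hl p hp
  refine ⟨projFamily X A ⟨⟨p1, hp1⟩, ⟨q, hq⟩⟩,
    (withSeminorms_proj X A).continuous_seminorm _, q1, hq1, fun u b => ?_⟩
  have h1 := le_mul_projSeminorm (p := p1) (q := q) (c := q1 b)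
    (r := (projSeminorm p q).comp ((d1Bilin3 M).flip b)) (apply_nonneg _ _)
    (fun x a => by
      change projSeminorm p q ((M.l b x) ⊗ₜ[ℂ] a) ≤ _
      refine (projSeminorm_tmul_le _ _ _ _).trans ?_
      calc p (M.l b x) * q a ≤ (q1 b * p1 x) * q a :=
            mul_le_mul_of_nonneg_right (h b x) (apply_nonneg _ _)
        _ = q1 b * (p1 x * q a) := by ring) u
  rw [mul_comm] at h1
  exact h1

theorem d1Bilin_BB (M : Bimodule A X) : BB (d1Bilin M) :=
  ((d1Bilin1_BB M).sub d1Bilin2_BB).add (d1Bilin3_BB M)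

/-- The map `(x ⊗ a) ⊗ b ↦ (x · a) ⊗ b - x ⊗ (a b) + (b · x) ⊗ a` on the algebraic tensor
product. -/
noncomputable def d1Pre (M : Bimodule A X) : PTensor (PTensor X A) A →L[ℂ] PTensor X A :=
  PTensor.lift (d1Bilin M) (d1Bilin_BB M)

end Top

section Complete

variable [UniformSpace X] [IsUniformAddGroup X] [ContinuousSMul ℂ X] [PolynormableSpace ℂ X]
  [CompleteSpace X] [T2Space X]

/-- The continuous linear map `d₀ : X ⊗̂ A → X`, `x ⊗ a ↦ x · a - a · x`. -/
noncomputable def d0 (M : Bimodule A X) : CTensor X A →L[ℂ] X :=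
  haveI : UniformContinuousConstSMul ℂ X := uniformContinuousConstSMul_of_continuousConstSMul ℂ X
  (d0Pre M).fromCompletion

/-- The continuous linear map `d₁ : X ⊗̂ A ⊗̂ A → X ⊗̂ A`,
`x ⊗ a ⊗ b ↦ (x · a) ⊗ b - x ⊗ (a b) + (b · x) ⊗ a`. -/
noncomputable def d1 (M : Bimodule A X) : CTensor (PTensor X A) A →L[ℂ] CTensor X A :=
  (d1Pre M).completion

theorem d0_coe (M : Bimodule A X) (u : PTensor X A) :
    d0 M (u : CTensor X A) = d0Pre M u := by
  haveI : UniformContinuousConstSMul ℂ X := uniformContinuousConstSMul_of_continuousConstSMul ℂ X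
  unfold d0
  exact ContinuousLinearMap.fromCompletion_apply_coe _ _

/-- The defining formula of `d₀`. -/
theorem d0_tm (M : Bimodule A X) (x : X) (a : A) :
    d0 M (tm x a : CTensor X A) = M.r a x - M.l a x := by
  rw [d0_coe]
  exact PTensor.lift_tm _ _ _ _

/-- The defining formula of `d₁`. -/
theorem d1_tm (M : Bimodule A X) (x : X) (a b : A) :
    d1 M (tm (tm x a) b : CTensor (PTensor X A) A) =
      ((tm (M.r a x) b - tm x (a * b) + tm (M.l b x) a : PTensor X A) : CTensor X A) := by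
  unfold d1
  rw [ContinuousLinearMap.completion_apply_coe]
  rfl

/-- `d₀ ∘ d₁ = 0`. -/
theorem d0_d1 (M : Bimodule A X) (w : CTensor (PTensor X A) A) : d0 M (d1 M w) = 0 := by
  induction w using Completion.induction_on with
  | hp => exact isClosed_eq ((d0 M).continuous.comp (d1 M).continuous) continuous_const
  | ih w =>
    induction w using PTensor.induction with
    | h0 => rw [Completion.coe_zero, map_zero, map_zero]
    | ha u v hu hv => rw [Completion.coe_add, map_add, map_add, hu, hv, add_zero]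
    | ht u b =>
      induction u using PTensor.induction with
      | h0 =>
        have : (tm (0 : PTensor X A) b) = 0 := TensorProduct.zero_tmul _ _
        rw [this, Completion.coe_zero, map_zero, map_zero]
      | ha u v hu hv => rw [add_tm, Completion.coe_add, map_add, map_add, hu, hv, add_zero]
      | ht x a =>
        rw [d1_tm, Completion.coe_add, Completion.coe_sub, map_add, map_sub, d0_tm, d0_tm, d0_tm,
          M.r_mul, M.l_mul, M.l_r]
        abel

end Complete

end Complex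

/-- Amenability: for every complete Hausdorff locally convex `A`-bimodule `X` with jointly
continuous actions, `H₁(A, X) = ker d₀ / im d₁` vanishes and `H₀(A, X) = X / im d₀` is Hausdorff,
that is, `im d₀` is closed. -/
def Amenable (A : Type u) [NonUnitalRing A] [Module ℂ A] [IsScalarTower ℂ A A]
    [SMulCommClass ℂ A A] [TopologicalSpace A] [IsTopologicalAddGroup A] [PolynormableSpace ℂ A]
    [ContinuousMul A] : Prop :=
  ∀ (X : Type u) [AddCommGroup X] [Module ℂ X] [UniformSpace X] [IsUniformAddGroup X]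
    [ContinuousSMul ℂ X] [PolynormableSpace ℂ X] [CompleteSpace X] [T2Space X]
    (M : Bimodule A X),
    (∀ z : CTensor X A, d0 M z = 0 → ∃ w : CTensor (PTensor X A) A, d1 M w = z) ∧
      IsClosed (Set.range (d0 M))

/-- The topology of `A` is defined by a family of submultiplicative seminorms. -/
def IsArensMichael (A : Type u) [NonUnitalRing A] [Module ℂ A] [TopologicalSpace A] : Prop :=
  ∃ (ι : Type u) (_ : Nonempty ι) (p : SeminormFamily ℂ A ι), WithSeminorms p ∧
    ∀ i a b, p i (a * b) ≤ p i a * p i b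

end Pool.Agent.Work.MP_09c931_an
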