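import Mathlib

/-!
# The space of countable ordinals
-/

set_option autoImplicit false

open scoped Topology
open Set

namespace Pool.Agent.Work.MP_09c931_an

/-- The set of all countable ordinals, i.e. of all ordinals below the first uncountable
ordinal `ω₁`, with its usual well-order. -/
def W1 : Type := (Cardinal.aleph 1).ord.ToType

noncomputable instance : LinearOrder W1 := inferInstanceAs (LinearOrder (Cardinal.aleph 1).ord.ToType)

instance : WellFoundedLT W1 := inferInstanceAs (WellFoundedLT (Cardinal.aleph 1).ord.ToType)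

/-- `W1` carries the order topology. -/
noncomputable instance : TopologicalSpace W1 := Preorder.topology W1

instance : OrderTopology W1 := ⟨rfl⟩

namespace W1

theorem countable_Iio (a : W1) : (Iio a).Countable := by
  rw [← Cardinal.le_aleph0_iff_set_countable]
  have h : Cardinal.mk (Iio a) < Cardinal.aleph 1 := Cardinal.mk_Iio_toType_ord_lt a
  rw [← Cardinal.succ_aleph0, Order.lt_succ_iff] at h
  exact h

theorem countable_Iic (a : W1) : (Iic a).Countable := by
  rw [← Iio_insert]
  exact (countable_Iio a).insert a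

theorem not_countable_univ : ¬ (univ : Set W1).Countable := by
  intro h
  rw [← Cardinal.le_aleph0_iff_set_countable, Cardinal.mk_univ] at h
  have h1 : Cardinal.mk W1 = Cardinal.aleph 1 := Cardinal.mk_ord_toType _
  rw [h1, ← not_lt] at h
  exact h Cardinal.aleph0_lt_aleph_one

theorem bddAbove_of_countable {s : Set W1} (hs : s.Countable) : ∃ b, ∀ a ∈ s, a < b := by
  by_contra hcon
  push Not at hcon
  apply not_countable_univ
  have : (univ : Set W1) ⊆ ⋃ a ∈ s, Iic a := by
    intro b _
    obtain ⟨a, ha, hab⟩ := hcon b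
    exact mem_biUnion ha hab
  exact (hs.biUnion fun a _ => countable_Iic a).mono this

instance : Nonempty W1 := by
  by_contra h
  rw [not_nonempty_iff] at h
  exact not_countable_univ (by simp [univ_eq_empty_iff.2 h])

instance : NoMaxOrder W1 := ⟨fun a => by
  obtain ⟨b, hb⟩ := bddAbove_of_countable (countable_singleton a)
  exact ⟨b, hb a rfl⟩⟩

noncomputable instance : OrderBot W1 where
  bot := WellFounded.min (wellFounded_lt : WellFounded ((· < ·) : W1 → W1 → Prop)) univ univ_nonempty
  bot_le a := not_lt.1 (WellFounded.not_lt_min _ univ (mem_univ a))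

theorem isCompact_Iic (a : W1) : IsCompact (Iic a) := by
  letI := WellFoundedLT.conditionallyCompleteLinearOrderBot W1
  rw [← Icc_bot]
  exact CompactIccSpace.isCompact_Icc

theorem isOpen_Iic (a : W1) : IsOpen (Iic a) := by
  obtain ⟨b, hb⟩ : ∃ b, a < b := exists_gt a
  -- the least element above `a`
  set s : Set W1 := Ioi a
  have hs : s.Nonempty := ⟨b, hb⟩
  set c := WellFounded.min (wellFounded_lt : WellFounded ((· < ·) : W1 → W1 → Prop)) s hs
  have hc : a < c := WellFounded.min_mem _ s hs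
  have : Iic a = Iio c := by
    ext x
    constructor
    · intro hx
      exact lt_of_le_of_lt hx hc
    · intro hx
      by_contra hxa
      have hxa' : a < x := lt_of_not_ge hxa
      exact WellFounded.not_lt_min (wellFounded_lt : WellFounded ((· < ·) : W1 → W1 → Prop)) s
        hxa' hx
  rw [this]
  exact isOpen_Iio

instance : WeaklyLocallyCompactSpace W1 where
  exists_compact_mem_nhds a := ⟨Iic a, isCompact_Iic a, (isOpen_Iic a).mem_nhds self_mem_Iic⟩

open Filter

/-- Every strictly increasing sequence of countable ordinals converges to its supremum. -/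
theorem exists_limit {a : ℕ → W1} (ha : StrictMono a) :
    ∃ δ, (∀ n, a n < δ) ∧ (∀ s, s < δ → ∃ n, s ≤ a n) ∧ Tendsto a atTop (𝓝 δ) := by
  obtain ⟨b, hb⟩ := bddAbove_of_countable (countable_range a)
  have hne : (upperBounds (range a)).Nonempty := ⟨b, fun x hx => (hb x hx).le⟩
  set δ := WellFounded.min (wellFounded_lt : WellFounded ((· < ·) : W1 → W1 → Prop)) _ hne with hδ
  have h1 : δ ∈ upperBounds (range a) := WellFounded.min_mem _ _ hne
  have h2 : ∀ x ∈ upperBounds (range a), δ ≤ x := fun x hx =>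
    not_lt.1 (WellFounded.not_lt_min _ _ hx)
  have hlub : IsLUB (range a) δ := ⟨h1, h2⟩
  refine ⟨δ, fun n => (ha (Nat.lt_succ_self n)).trans_le (h1 (mem_range_self _)), ?_,
    tendsto_atTop_isLUB ha.monotone hlub⟩
  intro s hs
  obtain ⟨x, ⟨n, rfl⟩, hn, -⟩ := hlub.exists_between hs
  exact ⟨n, hn.le⟩

/-- Every continuous complex function on a final segment of `ω₁` is eventually constant. -/
theorem eventually_const {f : W1 → ℂ} {γ : W1} (hf : ContinuousOn f (Ioi γ)) :
    ∃ β, γ < β ∧ ∀ t, β ≤ t → f t = f β := by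
  have key : ∀ ε : ℝ, 0 < ε → ∃ β, γ < β ∧ ∀ t t', β ≤ t → β ≤ t' → dist (f t) (f t') ≤ ε := by
    intro ε hε
    by_contra hcon
    push Not at hcon
    choose! t t' h1 h2 h3 using hcon
    obtain ⟨β0, hβ0⟩ := exists_gt γ
    choose nxt hn using (fun x : W1 => exists_gt x)
    let a : ℕ → W1 := fun n => Nat.rec β0 (fun _ b => nxt (max (t b) (t' b))) n
    have ha0 : ∀ n, γ < a n := by
      intro n
      induction n with
      | zero => exact hβ0
      | succ n ih =>
        have : a (n + 1) = nxt (max (t (a n)) (t' (a n))) := rfl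
        rw [this]
        exact ih.trans_le ((h1 _ ih).trans ((le_max_left _ _).trans (hn _).le))
    have ht : ∀ n, t (a n) < a (n + 1) := fun n => (le_max_left _ _).trans_lt (hn _)
    have ht' : ∀ n, t' (a n) < a (n + 1) := fun n => (le_max_right _ _).trans_lt (hn _)
    have hmono : StrictMono a := strictMono_nat_of_lt_succ fun n => (h1 _ (ha0 n)).trans_lt (ht n)
    obtain ⟨δ, hδ1, -, hδ3⟩ := exists_limit hmono
    have hδ4 : Tendsto (fun n => a (n + 1)) atTop (𝓝 δ) := hδ3.comp (tendsto_add_atTop_nat 1)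
    have htt : Tendsto (fun n => t (a n)) atTop (𝓝 δ) :=
      tendsto_of_tendsto_of_tendsto_of_le_of_le hδ3 hδ4 (fun n => h1 _ (ha0 n))
        (fun n => (ht n).le)
    have htt' : Tendsto (fun n => t' (a n)) atTop (𝓝 δ) :=
      tendsto_of_tendsto_of_tendsto_of_le_of_le hδ3 hδ4 (fun n => h2 _ (ha0 n))
        (fun n => (ht' n).le)
    have hcδ : ContinuousAt f δ := hf.continuousAt (Ioi_mem_nhds ((ha0 0).trans (hδ1 0)))
    have hlim : Tendsto (fun n => dist (f (t (a n))) (f (t' (a n)))) atTop (𝓝 (dist (f δ) (f δ))) :=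
      (hcδ.tendsto.comp htt).dist (hcδ.tendsto.comp htt')
    rw [dist_self] at hlim
    have := ge_of_tendsto hlim (Eventually.of_forall fun n => (h3 _ (ha0 n)).le)
    linarith
  choose! β hβ1 hβ2 using fun n : ℕ => key (1 / ((n : ℝ) + 1)) (by positivity)
  obtain ⟨b, hb⟩ := bddAbove_of_countable (countable_range β)
  refine ⟨b, (hβ1 0).trans (hb _ (mem_range_self 0)), fun t ht => ?_⟩
  have h : ∀ n : ℕ, dist (f t) (f b) ≤ 1 / ((n : ℝ) + 1) := fun n =>
    hβ2 n t b ((hb _ (mem_range_self n)).le.trans ht) (hb _ (mem_range_self n)).le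
  have h0 : dist (f t) (f b) ≤ 0 :=
    ge_of_tendsto tendsto_one_div_add_atTop_nhds_zero_nat (Eventually.of_forall h)
  exact dist_le_zero.1 h0

end W1

/-- The open subspace `{(s, t) : s < t}` of `ω₁ × ω₁`. -/
abbrev WT : Type := {z : W1 × W1 // z.1 < z.2}

open Filter in
/-- The main obstruction: there is no continuous function `U (s, t; r)` of `s < t` and `r` with
`U (s, t; t) - U (s, t; s) = 1`. -/
theorem no_continuous_splitting (U : WT × W1 → ℂ) (hU : Continuous U)
    (h : ∀ (s t : W1) (hst : s < t), U (⟨(s, t), hst⟩, t) - U (⟨(s, t), hst⟩, s) = 1) : False := by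
  -- `t ↦ U (s, t; r)` is eventually constant
  have h1 : ∀ s r : W1, ∃ β, s < β ∧ ∀ t t' (ht : s < t) (ht' : s < t'), β ≤ t → β ≤ t' →
      U (⟨(s, t), ht⟩, r) = U (⟨(s, t'), ht'⟩, r) := by
    intro s r
    have hc : ContinuousOn (fun t : W1 => if ht : s < t then U (⟨(s, t), ht⟩, r) else 0)
        (Ioi s) := by
      rw [continuousOn_iff_continuous_restrict]
      have : (Ioi s).domRestrict (fun t : W1 => if ht : s < t then U (⟨(s, t), ht⟩, r) else 0)
          = fun t : Ioi s => U (⟨(s, t.1), t.2⟩, r) := by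
        funext t
        exact dif_pos t.2
      rw [this]
      apply hU.comp
      refine Continuous.prodMk ?_ continuous_const
      exact Continuous.subtype_mk (continuous_const.prodMk continuous_subtype_val) _
    obtain ⟨β, hβ, hβ'⟩ := W1.eventually_const hc
    refine ⟨β, hβ, fun t t' ht ht' hbt hbt' => ?_⟩
    have e1 := hβ' t hbt
    have e2 := hβ' t' hbt'
    rw [dif_pos ht, dif_pos hβ] at e1
    rw [dif_pos ht', dif_pos hβ] at e2
    rw [e1, e2]
  choose G hG1 hG2 using h1
  -- closing off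
  have h2 : ∀ a : W1, ∃ b, a < b ∧ ∀ s r, s ≤ a → r ≤ a → G s r ≤ b := by
    intro a
    have hcount : ((fun z : W1 × W1 => G z.1 z.2) '' (Iic a ×ˢ Iic a)).Countable :=
      ((W1.countable_Iic a).prod (W1.countable_Iic a)).image _
    obtain ⟨b, hb⟩ := W1.bddAbove_of_countable hcount
    refine ⟨max b (G a a), (hG1 a a).trans_le (le_max_right _ _), fun s r hs hr => ?_⟩
    exact (hb _ ⟨(s, r), ⟨hs, hr⟩, rfl⟩).le.trans (le_max_left _ _)
  choose nxt hn1 hn2 using h2
  let a : ℕ → W1 := fun n => Nat.rec ⊥ (fun _ b => nxt b) n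
  have ha : ∀ n, a (n + 1) = nxt (a n) := fun n => rfl
  have hmono : StrictMono a := strictMono_nat_of_lt_succ fun n => by rw [ha]; exact hn1 _
  obtain ⟨δ, hδ1, hδ2, hδ3⟩ := W1.exists_limit hmono
  obtain ⟨T, hT⟩ := exists_gt δ
  -- `U (s, δ; r) = U (s, T; r)` for `s, r < δ`
  have h3 : ∀ s r (hs : s < δ) (_ : r < δ),
      U (⟨(s, δ), hs⟩, r) = U (⟨(s, T), hs.trans hT⟩, r) := by
    intro s r hs hr
    obtain ⟨n, hn⟩ := hδ2 s hs
    obtain ⟨m, hm⟩ := hδ2 r hr
    have e1 : G s r ≤ a (max n m + 1) := by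
      rw [ha]
      exact hn2 _ s r (hn.trans (hmono.monotone (le_max_left _ _)))
        (hm.trans (hmono.monotone (le_max_right _ _)))
    have e2 : G s r ≤ δ := e1.trans (hδ1 (max n m + 1)).le
    exact hG2 s r δ T hs (hs.trans hT) e2 (e2.trans hT.le)
  -- the same for `r = δ`
  have h4 : ∀ s (hs : s < δ), U (⟨(s, δ), hs⟩, δ) = U (⟨(s, T), hs.trans hT⟩, δ) := by
    intro s hs
    have l1 : Tendsto (fun n => U (⟨(s, δ), hs⟩, a n)) atTop (𝓝 (U (⟨(s, δ), hs⟩, δ))) :=
      (hU.comp (Continuous.prodMk continuous_const continuous_id)).continuousAt.tendsto.comp hδ3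
    have l2 : Tendsto (fun n => U (⟨(s, T), hs.trans hT⟩, a n)) atTop
        (𝓝 (U (⟨(s, T), hs.trans hT⟩, δ))) :=
      (hU.comp (Continuous.prodMk continuous_const continuous_id)).continuousAt.tendsto.comp hδ3
    have l3 : (fun n => U (⟨(s, δ), hs⟩, a n)) = fun n => U (⟨(s, T), hs.trans hT⟩, a n) := by
      funext n
      exact h3 s (a n) hs (hδ1 n)
    rw [l3] at l1
    exact tendsto_nhds_unique l1 l2
  have h5 : ∀ n, U (⟨(a n, T), (hδ1 n).trans hT⟩, δ) - U (⟨(a n, T), (hδ1 n).trans hT⟩, a n)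
      = 1 := by
    intro n
    rw [← h4 (a n) (hδ1 n), ← h3 (a n) (a n) (hδ1 n) (hδ1 n)]
    exact h _ _ _
  have l0 : Tendsto (fun n => (⟨(a n, T), (hδ1 n).trans hT⟩ : WT)) atTop
      (𝓝 (⟨(δ, T), hT⟩ : WT)) := by
    rw [tendsto_subtype_rng]
    exact hδ3.prodMk_nhds tendsto_const_nhds
  have l1 : Tendsto (fun n => U (⟨(a n, T), (hδ1 n).trans hT⟩, δ)) atTop
      (𝓝 (U (⟨(δ, T), hT⟩, δ))) :=
    hU.continuousAt.tendsto.comp (l0.prodMk_nhds tendsto_const_nhds)
  have l2 : Tendsto (fun n => U (⟨(a n, T), (hδ1 n).trans hT⟩, a n)) atTop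
      (𝓝 (U (⟨(δ, T), hT⟩, δ))) :=
    hU.continuousAt.tendsto.comp (l0.prodMk_nhds hδ3)
  have l3 := l1.sub l2
  simp only [h5, sub_self] at l3
  exact one_ne_zero (tendsto_nhds_unique tendsto_const_nhds l3)

end Pool.Agent.Work.MP_09c931_an
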