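import Pool.Agent.Work.MP_09c931_an.ContMap
import Pool.Agent.Work.MP_09c931_an.OmegaOne

/-!
# `C(ω₁)` is not amenable
-/

set_option autoImplicit false

open scoped Topology TensorProduct
open Set UniformSpace

namespace Pool.Agent.Work.MP_09c931_an

instance : LocallyCompactSpace WT :=
  (isOpen_lt continuous_fst continuous_snd).locallyCompactSpace

/-- First coordinate on `{(s, t) : s < t}`. -/
def fstW : C(WT, W1) := ⟨fun z => z.1.1, continuous_fst.comp continuous_subtype_val⟩

/-- Second coordinate on `{(s, t) : s < t}`. -/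
def sndW : C(WT, W1) := ⟨fun z => z.1.2, continuous_snd.comp continuous_subtype_val⟩

/-- The `C(ω₁)`-bimodule `C({(s, t) : s < t})`, with
`(a · x · b) (s, t) = a s * x (s, t) * b t`. -/
noncomputable def XBimod : Bimodule C(W1, ℂ) C(WT, ℂ) where
  l := LinearMap.mk₂ ℂ (fun a x => (a.comp fstW) * x)
    (fun a b x => by ext z; simp [add_mul]) (fun c a x => by ext z; simp [mul_assoc])
    (fun a x y => by ext z; simp [mul_add]) (fun c a x => by ext z; simp; ring)
  r := LinearMap.mk₂ ℂ (fun a x => (a.comp sndW) * x)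
    (fun a b x => by ext z; simp [add_mul]) (fun c a x => by ext z; simp [mul_assoc])
    (fun a x y => by ext z; simp [mul_add]) (fun c a x => by ext z; simp; ring)
  l_mul a b x := by ext z; simp [mul_assoc]
  r_mul a b x := by ext z; simp; ring
  l_r a b x := by ext z; simp; ring
  continuous_l := by
    have h : Continuous fun z : C(W1, ℂ) × C(WT, ℂ) => (z.1.comp fstW) * z.2 :=
      ((ContinuousMap.continuous_precomp fstW).comp continuous_fst).mul continuous_snd
    exact h
  continuous_r := by
    have h : Continuous fun z : C(W1, ℂ) × C(WT, ℂ) => (z.1.comp sndW) * z.2 :=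
      ((ContinuousMap.continuous_precomp sndW).comp continuous_fst).mul continuous_snd
    exact h

theorem d0_coe_tm (x : C(WT, ℂ)) (a : C(W1, ℂ)) :
    d0 XBimod (tm x a : CTensor C(WT, ℂ) C(W1, ℂ)) = (a.comp sndW) * x - (a.comp fstW) * x :=
  d0_tm _ _ _

/-- The bilinear map `(x, a) ↦ x (s, t) * a r`. -/
noncomputable def extBilin : C(WT, ℂ) →ₗ[ℂ] C(W1, ℂ) →ₗ[ℂ] C(WT × W1, ℂ) :=
  LinearMap.mk₂ ℂ (fun x a => (x.comp ContinuousMap.fst) * (a.comp ContinuousMap.snd))
    (fun x y a => by ext z; simp [add_mul]) (fun c x a => by ext z; simp [mul_assoc])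
    (fun x a b => by ext z; simp [mul_add]) (fun c x a => by ext z; simp; ring)

theorem extBilin_BB : BB extBilin := by
  apply BB.of_continuous
  have h : Continuous fun z : C(WT, ℂ) × C(W1, ℂ) =>
      (z.1.comp (ContinuousMap.fst : C(WT × W1, WT))) *
        (z.2.comp (ContinuousMap.snd : C(WT × W1, W1))) :=
    ((ContinuousMap.continuous_precomp _).comp continuous_fst).mul
      ((ContinuousMap.continuous_precomp _).comp continuous_snd)
  exact h

/-- The continuous linear map `C({s < t}) ⊗̂ C(ω₁) → C({s < t} × ω₁)`. -/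
noncomputable def Phi : CTensor C(WT, ℂ) C(W1, ℂ) →L[ℂ] C(WT × W1, ℂ) :=
  (PTensor.lift extBilin extBilin_BB).fromCompletion

theorem Phi_tm (x : C(WT, ℂ)) (a : C(W1, ℂ)) (z : WT) (r : W1) :
    Phi (tm x a : CTensor C(WT, ℂ) C(W1, ℂ)) (z, r) = x z * a r := by
  unfold Phi
  rw [ContinuousLinearMap.fromCompletion_apply_coe]
  rfl

theorem d0_eq_Phi (u : CTensor C(WT, ℂ) C(W1, ℂ)) (z : WT) :
    d0 XBimod u z = Phi u (z, z.1.2) - Phi u (z, z.1.1) := by
  induction u using Completion.induction_on with
  | hp =>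
    apply isClosed_eq
    · exact (continuous_eval_const z).comp (d0 XBimod).continuous
    · exact ((continuous_eval_const _).comp Phi.continuous).sub
        ((continuous_eval_const _).comp Phi.continuous)
  | ih u =>
    induction u using PTensor.induction with
    | h0 =>
      rw [Completion.coe_zero, map_zero, map_zero, ContinuousMap.zero_apply,
        ContinuousMap.zero_apply, ContinuousMap.zero_apply, sub_zero]
    | ht x a =>
      rw [d0_coe_tm, Phi_tm, Phi_tm]
      simp only [ContinuousMap.sub_apply, ContinuousMap.mul_apply, ContinuousMap.comp_apply]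
      change a z.1.2 * x z - a z.1.1 * x z = _
      ring
    | ha u v hu hv =>
      rw [Completion.coe_add, map_add, map_add, ContinuousMap.add_apply, ContinuousMap.add_apply,
        ContinuousMap.add_apply, hu, hv]
      ring

/-- The constant function `1` is not in the image of `d₀`. -/
theorem one_notMem_range : (1 : C(WT, ℂ)) ∉ range (d0 XBimod) := by
  rintro ⟨u, hu⟩
  apply no_continuous_splitting (Phi u) (Phi u).continuous
  intro s t hst
  have := d0_eq_Phi u ⟨(s, t), hst⟩
  rw [hu] at this
  exact this.symm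

/-- The characteristic function of a clopen set. -/
noncomputable def ind {T : Type} [TopologicalSpace T] (S : Set T) (hS : IsClopen S) : C(T, ℂ) :=
  ⟨S.indicator (fun _ => 1), continuous_const.indicator (by simp [hS.frontier_eq])⟩

theorem ind_of_mem {T : Type} [TopologicalSpace T] {S : Set T} (hS : IsClopen S) {x : T}
    (hx : x ∈ S) : ind S hS x = 1 := indicator_of_mem hx (fun _ => (1 : ℂ))

theorem ind_of_notMem {T : Type} [TopologicalSpace T] {S : Set T} (hS : IsClopen S) {x : T}
    (hx : x ∉ S) : ind S hS x = 0 := indicator_of_notMem hx (fun _ => (1 : ℂ))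

theorem W1.isClopen_Ioi (c : W1) : IsClopen (Ioi c) := by
  rw [← compl_Iic]
  exact ⟨(W1.isOpen_Iic c).isClosed_compl, isClosed_Iic.isOpen_compl⟩

/-- The clopen set `{(s, t) : s ≤ c < t}`. -/
def cutSet (c : W1) : Set WT := {z | z.1.1 ≤ c ∧ c < z.1.2}

theorem isClopen_cutSet (c : W1) : IsClopen (cutSet c) := by
  have h1 : IsClopen (fstW ⁻¹' (Iic c)) :=
    IsClopen.preimage ⟨isClosed_Iic, W1.isOpen_Iic c⟩ fstW.continuous
  have h2 : IsClopen (sndW ⁻¹' (Ioi c)) := (W1.isClopen_Ioi c).preimage sndW.continuous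
  exact h1.inter h2

/-- The continuous functions which are `1` on finitely many of the sets `{(s, t) : s ≤ c < t}`
lie in the image of `d₀`. -/
theorem exists_preimage (F : Finset W1) : ∃ u : PTensor C(WT, ℂ) C(W1, ℂ),
    d0 XBimod (u : CTensor C(WT, ℂ) C(W1, ℂ)) =
      1 - ∏ c ∈ F, (1 - ind (cutSet c) (isClopen_cutSet c)) := by
  classical
  induction F using Finset.induction_on with
  | empty => exact ⟨0, by rw [Completion.coe_zero, map_zero]; simp⟩
  | insert c F hc ih =>
    obtain ⟨u, hu⟩ := ih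
    refine ⟨u + tm ((∏ c ∈ F, (1 - ind (cutSet c) (isClopen_cutSet c))) *
      ind (cutSet c) (isClopen_cutSet c)) (ind (Ioi c) (W1.isClopen_Ioi c)), ?_⟩
    rw [Completion.coe_add, map_add, hu, d0_coe_tm, Finset.prod_insert hc]
    ext z
    simp only [ContinuousMap.sub_apply, ContinuousMap.mul_apply, ContinuousMap.comp_apply,
      ContinuousMap.add_apply, ContinuousMap.one_apply]
    set P := (∏ c ∈ F, (1 - ind (cutSet c) (isClopen_cutSet c)) : C(WT, ℂ)) z
    by_cases hz : z ∈ cutSet c
    · rw [ind_of_mem (isClopen_cutSet c) hz,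
        ind_of_mem (W1.isClopen_Ioi c) (show sndW z ∈ Ioi c from hz.2),
        ind_of_notMem (W1.isClopen_Ioi c) (show fstW z ∉ Ioi c from not_lt.2 hz.1)]
      ring
    · rw [ind_of_notMem (isClopen_cutSet c) hz]
      ring

/-- The constant function `1` is in the closure of the image of `d₀`. -/
theorem one_mem_closure : (1 : C(WT, ℂ)) ∈ closure (range (d0 XBimod)) := by
  rw [mem_closure_iff_nhds]
  intro V hV
  have hV' : (fun f : C(WT, ℂ) => 1 + f) ⁻¹' V ∈ 𝓝 (0 : C(WT, ℂ)) := by
    apply (continuous_const.add continuous_id).continuousAt.preimage_mem_nhds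
    simpa using hV
  obtain ⟨K, hK, r, hr, h⟩ := exists_compact_of_mem_nhds WT hV'
  obtain ⟨F, hF⟩ := hK.elim_finite_subcover cutSet (fun c => (isClopen_cutSet c).isOpen)
    (fun z _ => mem_iUnion.2 ⟨z.1.1, le_rfl, z.2⟩)
  obtain ⟨u, hu⟩ := exists_preimage F
  have h1 := h (-∏ c ∈ F, (1 - ind (cutSet c) (isClopen_cutSet c))) (by
    intro z hz
    obtain ⟨c, hc, hzc⟩ := mem_iUnion₂.1 (hF hz)
    have : (∏ c ∈ F, (1 - ind (cutSet c) (isClopen_cutSet c)) : C(WT, ℂ)) z = 0 := by
      rw [ContinuousMap.prod_apply]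
      apply Finset.prod_eq_zero hc
      rw [ContinuousMap.sub_apply, ind_of_mem _ hzc]
      simp
    rw [ContinuousMap.neg_apply, this]
    simpa using hr)
  refine ⟨_, ?_, ⟨(u : CTensor C(WT, ℂ) C(W1, ℂ)), rfl⟩⟩
  rw [hu, sub_eq_add_neg]
  exact h1

/-- `H₀(C(ω₁), C({s < t}))` is not Hausdorff. -/
theorem not_isClosed_range : ¬ IsClosed (range (d0 XBimod)) := by
  intro h
  apply one_notMem_range
  rw [← h.closure_eq]
  exact one_mem_closure

/-- The algebra `C(ω₁)` is not amenable. -/
theorem not_amenable : ¬ Amenable C(W1, ℂ) := by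
  intro h
  exact not_isClosed_range (h C(WT, ℂ) XBimod).2

end Pool.Agent.Work.MP_09c931_an
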